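import Pool.Agent.H9.SF.Dfb

/-! Basic set operations as definable functions (`Tm ZFm`) and relations (`Dfb ZFm`). -/

set_option linter.unusedVariables false

open Ordinal
open scoped ZFSet

namespace SF

variable {R R' : (V → Prop) → (ℕ → V) → Prop} {f g h : (V → Prop) → (ℕ → V) → V}

/-! ### closure lemmas for one model -/

namespace ZFm

variable {M : V → Prop}

theorem mpair (k : ZFm M) {x y : V} (hx : M x) (hy : M y) : M (ZFSet.pair x y) := by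
  unfold ZFSet.pair
  have h1 : M ({x} : V) := by
    have := k.pair x x hx hx
    rwa [ZFSet.pair_eq_singleton] at this
  exact k.pair _ _ h1 (k.pair x y hx hy)

theorem mempty (k : ZFm M) : M (∅ : V) := by
  have h1 := k.sep (.neg (.eq 0 0)) (fun _ => (ω : Ordinal.{0}).toZFSet) _ (fun _ => k.inf) k.inf
  convert h1 using 1
  ext x
  simp [Sat, SatP]

/-- components of a pair in a set -/
theorem of_pair_mem (k : ZFm M) {x y a : V} (ha : M a) (h : ZFSet.pair x y ∈ a) : M x ∧ M y := by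
  have h1 := k.trans _ ha _ h
  unfold ZFSet.pair at h1
  have h2 := k.trans _ h1 {x, y} (by simp)
  exact ⟨k.trans _ h2 x (by simp), k.trans _ h2 y (by simp)⟩

theorem of_pair (k : ZFm M) {x y : V} (h : M (ZFSet.pair x y)) : M x ∧ M y := by
  unfold ZFSet.pair at h
  have h2 := k.trans _ h {x, y} (by simp)
  exact ⟨k.trans _ h2 x (by simp), k.trans _ h2 y (by simp)⟩

end ZFm

/-! ### unordered pair, union -/

theorem Tm.upair (hf : Tm ZFm f) (hg : Tm ZFm g) : Tm ZFm (fun M v => ({f M v, g M v} : V)) := by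
  refine Tm.at2 (F := fun _ x y => ({x, y} : V)) ?_ hf hg
  refine Tm.of_rel (fun _ v => v 0 = v 1 ∨ v 0 = v 2) ktr_zfm
    (fun M k v hv => k.pair _ _ (hv 0) (hv 1))
    ((Dfb.eq (Tm.var 0) (Tm.var 1)).or (Dfb.eq (Tm.var 0) (Tm.var 2))) ?_
  intro M k v hv x hx
  simp [cons]

theorem Tm.sing (hf : Tm ZFm f) : Tm ZFm (fun M v => ({f M v} : V)) :=
  (Tm.upair hf hf).congr fun M k v hv => ZFSet.pair_eq_singleton _

theorem Tm.pair (hf : Tm ZFm f) (hg : Tm ZFm g) :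
    Tm ZFm (fun M v => ZFSet.pair (f M v) (g M v)) :=
  Tm.upair (Tm.sing hf) (Tm.upair hf hg)

theorem Tm.sUnion (hf : Tm ZFm f) : Tm ZFm (fun M v => (⋃₀ (f M v) : ZFSet)) := by
  refine Tm.at1 (F := fun _ x => (⋃₀ x : ZFSet)) ?_ hf
  refine Tm.of_rel (fun _ v => ∃ y ∈ v 1, v 0 ∈ y) ktr_zfm
    (fun M k v hv => k.union _ (hv 0)) ?_ ?_
  · refine (Dfb.bex (R := fun _ v => v 1 ∈ v 0) ktr_zfm (Tm.var 1)
      (Dfb.mem (Tm.var 1) (Tm.var 0))).congr fun M k v hv => Iff.rfl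
  · intro M k v hv x hx
    rw [ZFSet.mem_sUnion]
    exact Iff.rfl

theorem Tm.union (hf : Tm ZFm f) (hg : Tm ZFm g) : Tm ZFm (fun M v => f M v ∪ g M v) :=
  (Tm.sUnion (Tm.upair hf hg)).congr fun M k v hv => ZFSet.sUnion_pair _ _

theorem Tm.ins (hf : Tm ZFm f) (hg : Tm ZFm g) : Tm ZFm (fun M v => insert (f M v) (g M v)) :=
  (Tm.union (Tm.sing hf) hg).congr fun M k v hv => (ZFSet.insert_eq _ _).symm

theorem Tm.inter (hf : Tm ZFm f) (hg : Tm ZFm g) : Tm ZFm (fun M v => f M v ∩ g M v) := by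
  refine Tm.at2 (F := fun _ x y => x ∩ y) ?_ hf hg
  refine (Tm.sep (R := fun _ v => v 0 ∈ v 2) (Dfb.mem (Tm.var 0) (Tm.var 2)) (Tm.var 0)).congr ?_
  intro M k v hv
  exact ZFSet.sep_mem _ _

theorem Tm.diff (hf : Tm ZFm f) (hg : Tm ZFm g) : Tm ZFm (fun M v => f M v \ g M v) := by
  refine Tm.at2 (F := fun _ x y => x \ y) ?_ hf hg
  refine (Tm.sep (R := fun _ v => ¬ v 0 ∈ v 2) (Dfb.mem (Tm.var 0) (Tm.var 2)).not
    (Tm.var 0)).congr ?_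
  intro M k v hv
  exact ZFSet.sep_notMem _ _

theorem Tm.empty : Tm ZFm (fun _ _ => (∅ : V)) :=
  Tm.of_rel (fun _ _ => False) ktr_zfm (fun M k v hv => k.mempty) Dfb.fls
    fun M k v hv x hx => by simp

theorem Dfb.subset (hf : Tm ZFm f) (hg : Tm ZFm g) : Dfb ZFm (fun M v => f M v ⊆ g M v) := by
  refine Dfb.at2 (P := fun _ x y => x ⊆ y) ?_ hf hg
  refine (Dfb.ball (R := fun _ v => v 0 ∈ v 2) ktr_zfm (Tm.var 0)
    (Dfb.mem (Tm.var 0) (Tm.var 2))).congr fun M k v hv => ?_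
  exact ZFSet.subset_def.symm

theorem Dfb.ne (hf : Tm ZFm f) : Dfb ZFm (fun M v => (f M v).Nonempty) := by
  refine Dfb.at1 (P := fun _ x => x.Nonempty) ?_ hf
  refine (Dfb.bex (R := fun _ _ => True) ktr_zfm (Tm.var 0) Dfb.tru).congr fun M k v hv => ?_
  rw [ZFSet.nonempty_def]
  simp

/-! ### pairs and their components -/

/-- `f v = (g v, h v)` -/
theorem Dfb.isPair (hf : Tm ZFm f) (hg : Tm ZFm g) (hh : Tm ZFm h) :
    Dfb ZFm (fun M v => f M v = ZFSet.pair (g M v) (h M v)) :=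
  Dfb.eq hf (Tm.pair hg hh)

theorem Dfb.pairMem (hf : Tm ZFm f) (hg : Tm ZFm g) (hh : Tm ZFm h) :
    Dfb ZFm (fun M v => ZFSet.pair (f M v) (g M v) ∈ h M v) :=
  Dfb.mem (Tm.pair hf hg) hh

theorem mem_uu_left {x y a : V} (h : ZFSet.pair x y ∈ a) : x ∈ (⋃₀ (⋃₀ a : ZFSet) : ZFSet) := by
  rw [ZFSet.mem_sUnion]
  refine ⟨{x, y}, ?_, by simp⟩
  rw [ZFSet.mem_sUnion]
  exact ⟨_, h, by simp [ZFSet.pair]⟩

theorem mem_uu_right {x y a : V} (h : ZFSet.pair x y ∈ a) : y ∈ (⋃₀ (⋃₀ a : ZFSet) : ZFSet) := by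
  rw [ZFSet.mem_sUnion]
  refine ⟨{x, y}, ?_, by simp⟩
  rw [ZFSet.mem_sUnion]
  exact ⟨_, h, by simp [ZFSet.pair]⟩

/-- domain of a relation -/
noncomputable def dm (a : V) : V := (⋃₀ (⋃₀ a : ZFSet) : ZFSet).sep fun x => ∃ y, ZFSet.pair x y ∈ a

/-- range of a relation -/
noncomputable def rg (a : V) : V := (⋃₀ (⋃₀ a : ZFSet) : ZFSet).sep fun y => ∃ x, ZFSet.pair x y ∈ a

theorem mem_dm {a x : V} : x ∈ dm a ↔ ∃ y, ZFSet.pair x y ∈ a := by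
  unfold dm
  rw [ZFSet.mem_sep]
  exact ⟨fun h => h.2, fun ⟨y, h⟩ => ⟨mem_uu_left h, y, h⟩⟩

theorem mem_rg {a y : V} : y ∈ rg a ↔ ∃ x, ZFSet.pair x y ∈ a := by
  unfold rg
  rw [ZFSet.mem_sep]
  exact ⟨fun h => h.2, fun ⟨x, h⟩ => ⟨mem_uu_right h, x, h⟩⟩

theorem Tm.uu (hf : Tm ZFm f) : Tm ZFm (fun M v => (⋃₀ (⋃₀ (f M v) : ZFSet) : ZFSet)) :=
  Tm.sUnion (Tm.sUnion hf)

theorem Tm.dm (hf : Tm ZFm f) : Tm ZFm (fun M v => dm (f M v)) := by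
  refine Tm.at1 (F := fun _ x => SF.dm x) ?_ hf
  refine (Tm.sep (R := fun _ v => ∃ y ∈ (⋃₀ (⋃₀ (v 1) : ZFSet) : ZFSet), ZFSet.pair (v 0) y ∈ v 1) ?_
    (Tm.uu (Tm.var 0))).congr ?_
  · exact (Dfb.bex (R := fun _ v => ZFSet.pair (v 1) (v 0) ∈ v 2) ktr_zfm (Tm.uu (Tm.var 1))
      (Dfb.pairMem (Tm.var 1) (Tm.var 0) (Tm.var 2))).congr fun M k v hv => Iff.rfl
  · intro M k v hv
    ext x
    rw [ZFSet.mem_sep, mem_dm]
    simp only [cons_zero, cons_succ]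
    constructor
    · rintro ⟨-, y, -, h⟩
      exact ⟨y, h⟩
    · rintro ⟨y, h⟩
      exact ⟨mem_uu_left h, y, mem_uu_right h, h⟩

theorem Tm.rg (hf : Tm ZFm f) : Tm ZFm (fun M v => rg (f M v)) := by
  refine Tm.at1 (F := fun _ x => SF.rg x) ?_ hf
  refine (Tm.sep (R := fun _ v => ∃ y ∈ (⋃₀ (⋃₀ (v 1) : ZFSet) : ZFSet), ZFSet.pair y (v 0) ∈ v 1) ?_
    (Tm.uu (Tm.var 0))).congr ?_
  · exact (Dfb.bex (R := fun _ v => ZFSet.pair (v 0) (v 1) ∈ v 2) ktr_zfm (Tm.uu (Tm.var 1))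
      (Dfb.pairMem (Tm.var 0) (Tm.var 1) (Tm.var 2))).congr fun M k v hv => Iff.rfl
  · intro M k v hv
    ext x
    rw [ZFSet.mem_sep, mem_rg]
    simp only [cons_zero, cons_succ]
    constructor
    · rintro ⟨-, y, -, h⟩
      exact ⟨y, h⟩
    · rintro ⟨y, h⟩
      exact ⟨mem_uu_right h, y, mem_uu_left h, h⟩

/-- union of a definable family -/
theorem Tm.iUn (hf : Tm ZFm f) (hg : Tm ZFm g) :
    Tm ZFm (fun M v => (⋃₀ (imS (f M v) fun x => g M (cons x v)) : ZFSet)) :=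
  Tm.sUnion (Tm.image hf hg)

theorem Tm.prod (hf : Tm ZFm f) (hg : Tm ZFm g) : Tm ZFm (fun M v => ZFSet.prod (f M v) (g M v)) := by
  refine Tm.at2 (F := fun _ x y => ZFSet.prod x y) ?_ hf hg
  refine (Tm.iUn (f := fun _ v => v 0) (g := fun _ v => imS (v 2) fun y => ZFSet.pair (v 0) y)
    (Tm.var 0) ?_).congr ?_
  · exact (Tm.image (f := fun _ v => v 2) (g := fun _ v => ZFSet.pair (v 1) (v 0)) (Tm.var 2)
      (Tm.pair (Tm.var 1) (Tm.var 0))).congr fun M k v hv => rfl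
  · intro M k v hv
    ext z
    simp only [ZFSet.mem_sUnion, mem_imS, ZFSet.mem_prod, cons_zero, cons_succ]
    constructor
    · rintro ⟨_, ⟨x, hx, rfl⟩, h⟩
      rw [mem_imS] at h
      obtain ⟨y, hy, rfl⟩ := h
      exact ⟨x, hx, y, hy, rfl⟩
    · rintro ⟨x, hx, y, hy, rfl⟩
      refine ⟨_, ⟨x, hx, rfl⟩, ?_⟩
      rw [mem_imS]
      exact ⟨y, hy, rfl⟩

theorem fst_eq_of_not {q : V} (h : ¬ ∃ x y, q = ZFSet.pair x y) : fst q = ∅ := by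
  unfold fst
  rw [dif_neg h]

/-- second component of a pair -/
noncomputable def snd (q : V) : V :=
  open Classical in if h : ∃ y x, q = ZFSet.pair x y then h.choose else ∅

theorem snd_pair (x y : V) : snd (ZFSet.pair x y) = y := by
  have h : ∃ b a, ZFSet.pair x y = ZFSet.pair a b := ⟨y, x, rfl⟩
  unfold snd
  rw [dif_pos h]
  obtain ⟨b, hb⟩ := h.choose_spec
  exact (ZFSet.pair_injective hb).2.symm

attribute [simp] fst_pair snd_pair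

theorem snd_eq_of_not {q : V} (h : ¬ ∃ x y, q = ZFSet.pair x y) : snd q = ∅ := by
  unfold snd
  rw [dif_neg]
  rintro ⟨y, x, h2⟩
  exact h ⟨x, y, h2⟩

theorem mem_u_left (x y : V) : x ∈ (⋃₀ (ZFSet.pair x y) : ZFSet) := by
  rw [ZFSet.mem_sUnion]
  exact ⟨{x, y}, by simp [ZFSet.pair], by simp⟩

theorem mem_u_right (x y : V) : y ∈ (⋃₀ (ZFSet.pair x y) : ZFSet) := by
  rw [ZFSet.mem_sUnion]
  exact ⟨{x, y}, by simp [ZFSet.pair], by simp⟩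

/-- the argument is an ordered pair -/
def IsPr (q : V) : Prop := ∃ x y, q = ZFSet.pair x y

theorem Dfb.isPr (hf : Tm ZFm f) : Dfb ZFm (fun M v => IsPr (f M v)) := by
  refine Dfb.at1 (P := fun _ x => IsPr x) ?_ hf
  have h1 : Dfb ZFm (fun _ v => v 2 = ZFSet.pair (v 1) (v 0)) :=
    Dfb.isPair (Tm.var 2) (Tm.var 1) (Tm.var 0)
  have h2 := (h1.ex).ex
  refine h2.congr fun M k v hv => ?_
  constructor
  · rintro ⟨x, -, y, -, h⟩
    exact ⟨x, y, h⟩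
  · rintro ⟨x, y, h⟩
    have h3 : M (ZFSet.pair x y) := h ▸ hv 0
    exact ⟨x, (k.of_pair h3).1, y, (k.of_pair h3).2, h⟩

theorem Tm.fst (hf : Tm ZFm f) : Tm ZFm (fun M v => fst (f M v)) := by
  refine Tm.at1 (F := fun _ x => SF.fst x) ?_ hf
  have h0 : ∀ M : V → Prop, ZFm M → ∀ x : V, M x → M (SF.fst x) := by
    intro M k x hx
    by_cases h : ∃ a b, x = ZFSet.pair a b
    · obtain ⟨a, b, rfl⟩ := h
      rw [fst_pair]
      exact (k.of_pair hx).1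
    · rw [fst_eq_of_not h]
      exact k.mempty
  have h1 : Dfb ZFm (fun M v => ∃ y, M y ∧ v 1 = ZFSet.pair (v 0) y) :=
    (Dfb.ex (R := fun _ v => v 2 = ZFSet.pair (v 1) (v 0))
      (Dfb.isPair (Tm.var 2) (Tm.var 1) (Tm.var 0))).congr fun M k v hv => Iff.rfl
  refine Tm.of_graph (fun M k v hv => h0 M k _ (hv 0))
    (R := fun M v => (∃ y, M y ∧ v 1 = ZFSet.pair (v 0) y) ∨ (¬ IsPr (v 1) ∧ v 0 = ∅))
    (h1.or (((Dfb.isPr (Tm.var 1)).not).and (Dfb.eq (Tm.var 0) Tm.empty))) ?_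
  intro M k v hv x hx
  simp only [cons_zero, cons_succ]
  by_cases h : ∃ a b, v 0 = ZFSet.pair a b
  · obtain ⟨a, b, hab⟩ := h
    have hM : M (ZFSet.pair a b) := hab ▸ hv 0
    rw [hab, fst_pair]
    constructor
    · rintro (⟨y, -, h2⟩ | ⟨h2, -⟩)
      · exact (ZFSet.pair_inj.1 h2).1.symm
      · exact absurd ⟨a, b, rfl⟩ h2
    · rintro rfl
      exact Or.inl ⟨b, (k.of_pair hM).2, rfl⟩
  · rw [fst_eq_of_not h]
    constructor
    · rintro (⟨y, -, h2⟩ | ⟨-, h2⟩)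
      · exact absurd ⟨x, y, h2⟩ h
      · exact h2
    · intro h2
      exact Or.inr ⟨h, h2⟩

theorem Tm.snd (hf : Tm ZFm f) : Tm ZFm (fun M v => snd (f M v)) := by
  refine Tm.at1 (F := fun _ x => SF.snd x) ?_ hf
  have h0 : ∀ M : V → Prop, ZFm M → ∀ x : V, M x → M (SF.snd x) := by
    intro M k x hx
    by_cases h : ∃ a b, x = ZFSet.pair a b
    · obtain ⟨a, b, rfl⟩ := h
      rw [snd_pair]
      exact (k.of_pair hx).2
    · rw [snd_eq_of_not h]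
      exact k.mempty
  have h1 : Dfb ZFm (fun M v => ∃ y, M y ∧ v 1 = ZFSet.pair y (v 0)) :=
    (Dfb.ex (R := fun _ v => v 2 = ZFSet.pair (v 0) (v 1))
      (Dfb.isPair (Tm.var 2) (Tm.var 0) (Tm.var 1))).congr fun M k v hv => Iff.rfl
  refine Tm.of_graph (fun M k v hv => h0 M k _ (hv 0))
    (R := fun M v => (∃ y, M y ∧ v 1 = ZFSet.pair y (v 0)) ∨ (¬ IsPr (v 1) ∧ v 0 = ∅))
    (h1.or (((Dfb.isPr (Tm.var 1)).not).and (Dfb.eq (Tm.var 0) Tm.empty))) ?_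
  intro M k v hv x hx
  simp only [cons_zero, cons_succ]
  by_cases h : ∃ a b, v 0 = ZFSet.pair a b
  · obtain ⟨a, b, hab⟩ := h
    have hM : M (ZFSet.pair a b) := hab ▸ hv 0
    rw [hab, snd_pair]
    constructor
    · rintro (⟨y, -, h2⟩ | ⟨h2, -⟩)
      · exact (ZFSet.pair_inj.1 h2).2.symm
      · exact absurd ⟨a, b, rfl⟩ h2
    · rintro rfl
      exact Or.inl ⟨a, (k.of_pair hM).1, rfl⟩
  · rw [snd_eq_of_not h]
    constructor
    · rintro (⟨y, -, h2⟩ | ⟨-, h2⟩)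
      · exact absurd ⟨y, x, h2⟩ h
      · exact h2
    · intro h2
      exact Or.inr ⟨h, h2⟩

/-! ### functions -/

theorem Tm.app (hf : Tm ZFm f) (hg : Tm ZFm g) : Tm ZFm (fun M v => app (f M v) (g M v)) := by
  refine Tm.at2 (F := fun _ x y => SF.app x y) ?_ hf hg
  refine (Tm.sUnion (Tm.sep (R := fun _ v => ZFSet.pair (v 2) (v 0) ∈ v 1)
    (Dfb.pairMem (Tm.var 2) (Tm.var 0) (Tm.var 1)) (Tm.uu (Tm.var 0)))).congr ?_
  intro M k v hv
  rfl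

/-- `f` is a single valued relation -/
def Svl (f : V) : Prop := ∀ x y z, ZFSet.pair x y ∈ f → ZFSet.pair x z ∈ f → y = z

theorem app_eq {f x y : V} (h : Svl f) (hxy : ZFSet.pair x y ∈ f) : app f x = y := by
  unfold app
  have h1 : ((⋃₀ (⋃₀ f : ZFSet) : ZFSet).sep fun y => ZFSet.pair x y ∈ f) = {y} := by
    ext z
    rw [ZFSet.mem_sep, ZFSet.mem_singleton]
    constructor
    · rintro ⟨-, hz⟩
      exact h _ _ _ hz hxy
    · rintro rfl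
      exact ⟨mem_uu_right hxy, hxy⟩
  rw [h1, ZFSet.sUnion_singleton]

theorem svl_of_isFunc {x y f : V} (h : ZFSet.IsFunc x y f) : Svl f := by
  intro a b c hb hc
  have ha : a ∈ x := (ZFSet.pair_mem_prod.1 (h.1 hb)).1
  exact (h.2 a ha).unique hb hc

theorem app_mem {x y f a : V} (h : ZFSet.IsFunc x y f) (ha : a ∈ x) : app f a ∈ y := by
  obtain ⟨b, hb, -⟩ := h.2 a ha
  rw [app_eq (svl_of_isFunc h) hb]
  exact (ZFSet.pair_mem_prod.1 (h.1 hb)).2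

theorem pair_app_mem {x y f a : V} (h : ZFSet.IsFunc x y f) (ha : a ∈ x) :
    ZFSet.pair a (app f a) ∈ f := by
  obtain ⟨b, hb, -⟩ := h.2 a ha
  rwa [app_eq (svl_of_isFunc h) hb]

theorem pair_mem_iff_app {x y f a b : V} (h : ZFSet.IsFunc x y f) :
    ZFSet.pair a b ∈ f ↔ a ∈ x ∧ b = app f a := by
  constructor
  · intro hab
    refine ⟨(ZFSet.pair_mem_prod.1 (h.1 hab)).1, ?_⟩
    rw [app_eq (svl_of_isFunc h) hab]
  · rintro ⟨ha, rfl⟩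
    exact pair_app_mem h ha

theorem Dfb.isFunc (hf : Tm ZFm f) (hg : Tm ZFm g) (hh : Tm ZFm h) :
    Dfb ZFm (fun M v => ZFSet.IsFunc (f M v) (g M v) (h M v)) := by
  refine Dfb.at3 (P := fun _ x y z => ZFSet.IsFunc x y z) ?_ hf hg hh
  have h1 : Dfb ZFm (fun _ v => v 2 ⊆ ZFSet.prod (v 0) (v 1)) :=
    Dfb.subset (Tm.var 2) (Tm.prod (Tm.var 0) (Tm.var 1))
  have h2 : Dfb ZFm (fun M v => ∀ z ∈ v 0, ∃ w, M w ∧ (ZFSet.pair z w ∈ v 2 ∧
      ∀ u, M u → (ZFSet.pair z u ∈ v 2 → u = w))) := by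
    refine (Dfb.ball (R := fun M v => ∃ w, M w ∧ (ZFSet.pair (v 0) w ∈ v 3 ∧
      ∀ u, M u → (ZFSet.pair (v 0) u ∈ v 3 → u = w))) ktr_zfm (Tm.var 0) ?_).congr
      fun M k v hv => Iff.rfl
    refine (Dfb.ex (R := fun M v => ZFSet.pair (v 1) (v 0) ∈ v 4 ∧
      ∀ u, M u → (ZFSet.pair (v 1) u ∈ v 4 → u = v 0)) ?_).congr fun M k v hv => Iff.rfl
    refine (Dfb.pairMem (Tm.var 1) (Tm.var 0) (Tm.var 4)).and ?_
    exact (Dfb.all (R := fun _ v => ZFSet.pair (v 2) (v 0) ∈ v 5 → v 0 = v 1)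
      ((Dfb.pairMem (Tm.var 2) (Tm.var 0) (Tm.var 5)).imp
        (Dfb.eq (Tm.var 0) (Tm.var 1)))).congr fun M k v hv => Iff.rfl
  refine (h1.and h2).congr fun M k v hv => ?_
  unfold ZFSet.IsFunc
  refine and_congr_right fun _ => forall_congr' fun z => imp_congr_right fun hz => ?_
  constructor
  · rintro ⟨w, -, hw, h3⟩
    exact ⟨w, hw, fun u hu => h3 u (k.of_pair_mem (hv 2) hu).2 hu⟩
  · rintro ⟨w, hw, h3⟩
    exact ⟨w, (k.of_pair_mem (hv 2) hw).2, hw, fun u _ hu => h3 u hu⟩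

theorem Dfb.onto (hf : Tm ZFm f) (hg : Tm ZFm g) (hh : Tm ZFm h) :
    Dfb ZFm (fun M v => Onto (f M v) (g M v) (h M v)) := by
  refine Dfb.at3 (P := fun _ x y z => Onto x y z) ?_ hf hg hh
  refine (Dfb.isFunc (Tm.var 1) (Tm.var 2) (Tm.var 0)).and ?_
  refine (Dfb.ball (R := fun _ v => ∃ a ∈ v 2, ZFSet.pair a (v 0) ∈ v 1) ktr_zfm (Tm.var 2)
    ?_).congr fun M k v hv => Iff.rfl
  exact (Dfb.bex (R := fun _ v => ZFSet.pair (v 0) (v 1) ∈ v 2) ktr_zfm (Tm.var 2)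
    (Dfb.pairMem (Tm.var 0) (Tm.var 1) (Tm.var 2))).congr fun M k v hv => Iff.rfl

theorem Dfb.svl (hf : Tm ZFm f) : Dfb ZFm (fun M v => Svl (f M v)) := by
  refine Dfb.at1 (P := fun _ x => Svl x) ?_ hf
  have h1 : Dfb ZFm (fun _ v => ZFSet.pair (v 2) (v 1) ∈ v 3 → ZFSet.pair (v 2) (v 0) ∈ v 3 →
      v 1 = v 0) :=
    (Dfb.pairMem (Tm.var 2) (Tm.var 1) (Tm.var 3)).imp
      ((Dfb.pairMem (Tm.var 2) (Tm.var 0) (Tm.var 3)).imp (Dfb.eq (Tm.var 1) (Tm.var 0)))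
  refine h1.all.all.all.congr fun M k v hv => ?_
  constructor
  · intro h x y z hxy hxz
    exact h x (k.of_pair_mem (hv 0) hxy).1 y (k.of_pair_mem (hv 0) hxy).2 z
      (k.of_pair_mem (hv 0) hxz).2 hxy hxz
  · intro h x _ y _ z _ hxy hxz
    exact h x y z hxy hxz

/-! ### the function `x ↦ F x` on a set, as a set -/

/-- the set of the pairs `(x, F x)`, `x ∈ a` -/
noncomputable def resS (a : V) (F : V → V) : V := imS a fun x => ZFSet.pair x (F x)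

theorem mem_resS {a : V} {F : V → V} {z : V} : z ∈ resS a F ↔ ∃ x ∈ a, ZFSet.pair x (F x) = z := by
  unfold resS
  rw [mem_imS]

@[simp] theorem pair_mem_resS {a x y : V} {F : V → V} :
    ZFSet.pair x y ∈ resS a F ↔ x ∈ a ∧ y = F x := by
  rw [mem_resS]
  constructor
  · rintro ⟨z, hz, h⟩
    obtain ⟨rfl, rfl⟩ := ZFSet.pair_inj.1 h
    exact ⟨hz, rfl⟩
  · rintro ⟨hx, rfl⟩
    exact ⟨x, hx, rfl⟩

theorem svl_resS (a : V) (F : V → V) : Svl (resS a F) := by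
  intro x y z hy hz
  rw [pair_mem_resS] at hy hz
  rw [hy.2, hz.2]

theorem app_resS {a x : V} {F : V → V} (hx : x ∈ a) : app (resS a F) x = F x :=
  app_eq (svl_resS a F) (pair_mem_resS.2 ⟨hx, rfl⟩)

theorem dm_resS (a : V) (F : V → V) : dm (resS a F) = a := by
  ext x
  rw [mem_dm]
  constructor
  · rintro ⟨y, hy⟩
    exact (pair_mem_resS.1 hy).1
  · intro hx
    exact ⟨_, pair_mem_resS.2 ⟨hx, rfl⟩⟩

theorem resS_congr {a : V} {F G : V → V} (h : ∀ x ∈ a, F x = G x) : resS a F = resS a G := by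
  ext z
  rw [mem_resS, mem_resS]
  refine exists_congr fun x => and_congr_right fun hx => ?_
  rw [h x hx]

theorem isFunc_resS (a b : V) (F : V → V) (h : ∀ x ∈ a, F x ∈ b) : ZFSet.IsFunc a b (resS a F) := by
  constructor
  · intro z hz
    obtain ⟨x, hx, rfl⟩ := mem_resS.1 hz
    exact ZFSet.pair_mem_prod.2 ⟨hx, h x hx⟩
  · intro x hx
    exact ⟨F x, pair_mem_resS.2 ⟨hx, rfl⟩, fun y hy => (pair_mem_resS.1 hy).2⟩

theorem Tm.resS (hf : Tm ZFm f) (hg : Tm ZFm g) :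
    Tm ZFm (fun M v => resS (f M v) fun x => g M (cons x v)) :=
  Tm.image (g := fun M v => ZFSet.pair (v 0) (g M v)) hf (Tm.pair (Tm.var 0) hg)

/-! ### ordinals -/

theorem Dfb.isTrans (hf : Tm ZFm f) : Dfb ZFm (fun M v => (f M v).IsTransitive) := by
  refine Dfb.at1 (P := fun _ x => x.IsTransitive) ?_ hf
  refine (Dfb.ball (R := fun _ v => v 0 ⊆ v 1) ktr_zfm (Tm.var 0)
    (Dfb.subset (Tm.var 0) (Tm.var 1))).congr fun M k v hv => Iff.rfl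

/-- the argument is an ordinal -/
def IsOrd (x : V) : Prop := ∃ α : Ordinal.{0}, x = α.toZFSet

theorem isOrd_iff (x : V) : IsOrd x ↔ x.IsTransitive ∧ ∀ y ∈ x, y.IsTransitive := by
  rw [← ZFSet.isOrdinal_iff_forall_mem_isTransitive, ZFSet.isOrdinal_iff_mem_range_toZFSet]
  constructor
  · rintro ⟨α, h⟩
    exact ⟨α, h.symm⟩
  · rintro ⟨α, h⟩
    exact ⟨α, h.symm⟩

theorem Dfb.isOrd (hf : Tm ZFm f) : Dfb ZFm (fun M v => IsOrd (f M v)) := by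
  refine Dfb.at1 (P := fun _ x => IsOrd x) ?_ hf
  refine ((Dfb.isTrans (Tm.var 0)).and (Dfb.ball (R := fun _ v => (v 0).IsTransitive) ktr_zfm
    (Tm.var 0) (Dfb.isTrans (Tm.var 0)))).congr fun M k v hv => ?_
  rw [isOrd_iff]
  rfl

/-- `ω` as a set -/
noncomputable abbrev om : V := (ω : Ordinal.{0}).toZFSet

/-- the natural number `n` as a set -/
noncomputable abbrev nS (n : ℕ) : V := (n : Ordinal.{0}).toZFSet

theorem mem_om {x : V} : x ∈ om ↔ ∃ n : ℕ, x = nS n := by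
  rw [Ordinal.mem_toZFSet_iff]
  constructor
  · rintro ⟨a, ha, rfl⟩
    obtain ⟨n, rfl⟩ := Ordinal.lt_omega0.1 ha
    exact ⟨n, rfl⟩
  · rintro ⟨n, rfl⟩
    exact ⟨n, Ordinal.natCast_lt_omega0 n, rfl⟩

theorem nS_zero : nS 0 = ∅ := by
  simp [nS]

theorem nS_succ (n : ℕ) : nS (n + 1) = insert (nS n) (nS n) := by
  unfold nS
  rw [← Ordinal.toZFSet_add_one]
  norm_cast

theorem nS_inj {m n : ℕ} : nS m = nS n ↔ m = n := by
  unfold nS
  rw [Ordinal.toZFSet_injective.eq_iff]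
  exact Nat.cast_inj

theorem om_char (x : V) : x = om ↔ ∅ ∈ x ∧ (∀ y ∈ x, insert y y ∈ x) ∧
    ∀ y ∈ x, y = ∅ ∨ ∃ z ∈ x, y = insert z z := by
  constructor
  · rintro rfl
    refine ⟨mem_om.2 ⟨0, nS_zero.symm⟩, ?_, ?_⟩
    · intro y hy
      obtain ⟨n, rfl⟩ := mem_om.1 hy
      exact mem_om.2 ⟨n + 1, (nS_succ n).symm⟩
    · intro y hy
      obtain ⟨n, rfl⟩ := mem_om.1 hy
      cases n with
      | zero => exact Or.inl nS_zero
      | succ n => exact Or.inr ⟨nS n, mem_om.2 ⟨n, rfl⟩, nS_succ n⟩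
  · rintro ⟨h0, h1, h2⟩
    ext y
    constructor
    · induction y using ZFSet.inductionOn with
      | _ y ih =>
        intro hy
        rcases h2 y hy with rfl | ⟨z, hz, rfl⟩
        · exact mem_om.2 ⟨0, nS_zero.symm⟩
        · obtain ⟨n, hn⟩ := mem_om.1 (ih z (by simp) hz)
          exact mem_om.2 ⟨n + 1, by rw [nS_succ, hn]⟩
    · intro hy
      obtain ⟨n, rfl⟩ := mem_om.1 hy
      clear hy
      induction n with
      | zero => rw [nS_zero]; exact h0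
      | succ n ih => rw [nS_succ]; exact h1 _ ih

theorem Tm.om : Tm ZFm (fun _ _ => SF.om) := by
  refine Tm.of_graph (fun M k v hv => k.inf) (R := fun _ v => ∅ ∈ v 0 ∧
    (∀ y ∈ v 0, insert y y ∈ v 0) ∧ ∀ y ∈ v 0, y = ∅ ∨ ∃ z ∈ v 0, y = insert z z) ?_ ?_
  · refine (Dfb.mem Tm.empty (Tm.var 0)).and (Dfb.and ?_ ?_)
    · exact (Dfb.ball (R := fun _ v => insert (v 0) (v 0) ∈ v 1) ktr_zfm (Tm.var 0)
        (Dfb.mem (Tm.ins (Tm.var 0) (Tm.var 0)) (Tm.var 1))).congr fun M k v hv => Iff.rfl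
    · refine (Dfb.ball (R := fun _ v => v 0 = ∅ ∨ ∃ z ∈ v 1, v 0 = insert z z) ktr_zfm (Tm.var 0)
        ((Dfb.eq (Tm.var 0) Tm.empty).or ?_)).congr fun M k v hv => Iff.rfl
      exact (Dfb.bex (R := fun _ v => v 1 = insert (v 0) (v 0)) ktr_zfm (Tm.var 1)
        (Dfb.eq (Tm.var 1) (Tm.ins (Tm.var 0) (Tm.var 0)))).congr fun M k v hv => Iff.rfl
  · intro M k v hv x hx
    exact (om_char x).symm

theorem Tm.nS (n : ℕ) : Tm ZFm (fun _ _ => SF.nS n) := by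
  induction n with
  | zero => exact Tm.empty.congr fun _ _ _ _ => nS_zero.symm
  | succ n ih => exact (Tm.ins ih ih).congr fun _ _ _ _ => (nS_succ n).symm

theorem Dfb.ctbl (hf : Tm ZFm f) : Dfb ZFm (fun M v => Ctbl M (f M v)) := by
  refine Dfb.at1 (P := fun M x => Ctbl M x) ?_ hf
  refine (Dfb.eq (Tm.var 0) Tm.empty).or ?_
  exact (Dfb.ex (R := fun _ v => Onto (v 0) om (v 1))
    (Dfb.onto (Tm.var 0) Tm.om (Tm.var 1))).congr fun M k v hv => Iff.rfl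

/-! ### forcing notions -/

theorem Dfb.isPo (hf : Tm ZFm f) (hg : Tm ZFm g) : Dfb ZFm (fun M v => IsPo (f M v) (g M v)) := by
  refine Dfb.at2 (P := fun _ x y => IsPo x y) ?_ hf hg
  have h1 : Dfb ZFm (fun _ v => ∀ z ∈ v 1, z ∈ ZFSet.prod (v 0) (v 0)) :=
    (Dfb.ball (R := fun _ v => v 0 ∈ ZFSet.prod (v 1) (v 1)) ktr_zfm (Tm.var 1)
      (Dfb.mem (Tm.var 0) (Tm.prod (Tm.var 1) (Tm.var 1)))).congr fun M k v hv => Iff.rfl
  have h2 : Dfb ZFm (fun _ v => ∀ z ∈ v 0, ZFSet.pair z z ∈ v 1) :=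
    (Dfb.ball (R := fun _ v => ZFSet.pair (v 0) (v 0) ∈ v 2) ktr_zfm (Tm.var 0)
      (Dfb.pairMem (Tm.var 0) (Tm.var 0) (Tm.var 2))).congr fun M k v hv => Iff.rfl
  have h3 : Dfb ZFm (fun M v => ∀ x, M x → ∀ y, M y → ∀ z, M z →
      (ZFSet.pair x y ∈ v 1 → ZFSet.pair y z ∈ v 1 → ZFSet.pair x z ∈ v 1)) := by
    have h4 : Dfb ZFm (fun _ v => ZFSet.pair (v 2) (v 1) ∈ v 4 → ZFSet.pair (v 1) (v 0) ∈ v 4 →
        ZFSet.pair (v 2) (v 0) ∈ v 4) :=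
      (Dfb.pairMem (Tm.var 2) (Tm.var 1) (Tm.var 4)).imp
        ((Dfb.pairMem (Tm.var 1) (Tm.var 0) (Tm.var 4)).imp
          (Dfb.pairMem (Tm.var 2) (Tm.var 0) (Tm.var 4)))
    exact h4.all.all.all.congr fun M k v hv => Iff.rfl
  refine ((Dfb.ne (Tm.var 0)).and (h1.and (h2.and h3))).congr fun M k v hv => ?_
  constructor
  · rintro ⟨a1, a2, a3, a4⟩
    refine ⟨a1, fun z hz => ?_, a3, fun x y z hxy hyz => ?_⟩
    · exact ZFSet.mem_prod.1 (a2 z hz)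
    · exact a4 x (k.of_pair_mem (hv 1) hxy).1 y (k.of_pair_mem (hv 1) hxy).2 z
        (k.of_pair_mem (hv 1) hyz).2 hxy hyz
  · rintro ⟨a1, a2, a3, a4⟩
    exact ⟨a1, fun z hz => ZFSet.mem_prod.2 (a2 z hz), a3,
      fun x _ y _ z _ hxy hyz => a4 x y z hxy hyz⟩

theorem Dfb.isDense (hf : Tm ZFm f) (hg : Tm ZFm g) (hh : Tm ZFm h) :
    Dfb ZFm (fun M v => IsDense (f M v) (g M v) (h M v)) := by
  refine Dfb.at3 (P := fun _ x y z => IsDense x y z) ?_ hf hg hh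
  refine (Dfb.subset (Tm.var 2) (Tm.var 0)).and ?_
  refine (Dfb.ball (R := fun _ v => ∃ d ∈ v 3, ZFSet.pair d (v 0) ∈ v 2) ktr_zfm (Tm.var 0)
    ?_).congr fun M k v hv => Iff.rfl
  exact (Dfb.bex (R := fun _ v => ZFSet.pair (v 0) (v 1) ∈ v 3) ktr_zfm (Tm.var 3)
    (Dfb.pairMem (Tm.var 0) (Tm.var 1) (Tm.var 3))).congr fun M k v hv => Iff.rfl

theorem Dfb.isFil (hf : Tm ZFm f) (hg : Tm ZFm g) (hh : Tm ZFm h) :
    Dfb ZFm (fun M v => IsFil (f M v) (g M v) (h M v)) := by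
  refine Dfb.at3 (P := fun _ x y z => IsFil x y z) ?_ hf hg hh
  have h1 : Dfb ZFm (fun M v => ∀ p ∈ v 2, ∀ q, M q → (ZFSet.pair p q ∈ v 1 → q ∈ v 2)) := by
    refine (Dfb.ball (R := fun M v => ∀ q, M q → (ZFSet.pair (v 0) q ∈ v 2 → q ∈ v 3)) ktr_zfm
      (Tm.var 2) ?_).congr fun M k v hv => Iff.rfl
    exact (Dfb.all (R := fun _ v => ZFSet.pair (v 1) (v 0) ∈ v 3 → v 0 ∈ v 4)
      ((Dfb.pairMem (Tm.var 1) (Tm.var 0) (Tm.var 3)).imp
        (Dfb.mem (Tm.var 0) (Tm.var 4)))).congr fun M k v hv => Iff.rfl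
  have h2 : Dfb ZFm (fun _ v => ∀ p ∈ v 2, ∀ q ∈ v 2, ∃ s ∈ v 2, ZFSet.pair s p ∈ v 1 ∧
      ZFSet.pair s q ∈ v 1) := by
    refine (Dfb.ball (R := fun _ v => ∀ q ∈ v 3, ∃ s ∈ v 3, ZFSet.pair s (v 0) ∈ v 2 ∧
      ZFSet.pair s q ∈ v 2) ktr_zfm (Tm.var 2) ?_).congr fun M k v hv => Iff.rfl
    refine (Dfb.ball (R := fun _ v => ∃ s ∈ v 4, ZFSet.pair s (v 1) ∈ v 3 ∧
      ZFSet.pair s (v 0) ∈ v 3) ktr_zfm (Tm.var 3) ?_).congr fun M k v hv => Iff.rfl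
    exact (Dfb.bex (R := fun _ v => ZFSet.pair (v 0) (v 2) ∈ v 4 ∧
      ZFSet.pair (v 0) (v 1) ∈ v 4) ktr_zfm (Tm.var 4)
      ((Dfb.pairMem (Tm.var 0) (Tm.var 2) (Tm.var 4)).and
        (Dfb.pairMem (Tm.var 0) (Tm.var 1) (Tm.var 4)))).congr fun M k v hv => Iff.rfl
  refine ((Dfb.subset (Tm.var 2) (Tm.var 0)).and ((Dfb.ne (Tm.var 2)).and (h1.and h2))).congr
    fun M k v hv => ?_
  constructor
  · rintro ⟨a1, a2, a3, a4⟩
    exact ⟨a1, a2, fun p hp q hq => a3 p hp q (k.of_pair_mem (hv 1) hq).2 hq, a4⟩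
  · rintro ⟨a1, a2, a3, a4⟩
    exact ⟨a1, a2, fun p hp q _ hq => a3 p hp q hq, a4⟩

end SF
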