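import Pool.Agent.H9.SF.FDefs

/-! # Forcing over transitive models of `ZFm`: more targets of part F -/

set_option linter.unusedVariables false

open Ordinal
open scoped ZFSet

namespace SF

/-- `O` is a regular open subset of the forcing notion `(c, r)` -/
def RegO (c r O : V) : Prop := O ⊆ c ∧ (∀ p ∈ O, ∀ q, ZFSet.pair q p ∈ r → q ∈ O) ∧
  ∀ p ∈ c, (∀ q, ZFSet.pair q p ∈ r → ∃ q' ∈ O, ZFSet.pair q' q ∈ r) → p ∈ O

/-- FQ. Nice names: a subset of a set `a` of the model which belongs to the extension is given by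
a function of the model with domain `a` whose values are regular open sets. -/
def T_FQ : Prop := ∀ (M : V → Prop) (c r : V), ZFm M → M c → M r → IsPo c r →
  ∀ n a, M n → M a → ∃ s, M s ∧ Svl s ∧ dm s = a ∧ (∀ x ∈ a, RegO c r (app s x)) ∧
    ∀ G, Gen M c r G → ∀ x ∈ a, (x ∈ val G n ↔ ∃ p ∈ G, p ∈ app s x)

/-- FR. Generic filters and intersections of regular open sets. -/
def T_FR : Prop := ∀ (M : V → Prop) (c r : V), ZFm M → M c → M r → IsPo c r →
  ∀ S, M S → (∀ O ∈ S, RegO c r O) →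
    RegO c r (c.sep fun p => ∀ O ∈ S, p ∈ O) ∧
    ∀ G, Gen M c r G → (∀ O ∈ S, ∃ p ∈ G, p ∈ O) → ∃ p ∈ G, ∀ O ∈ S, p ∈ O

/-- FS. Regular open sets: definability, the regular open set generated by a condition, and
generic filters: of two complementary regular open sets one meets the generic filter. -/
def T_FS : Prop := Dfb ZFm (fun _ v => RegO (v 0) (v 1) (v 2)) ∧
  ∀ (M : V → Prop) (c r G : V), ZFm M → M c → M r → IsPo c r → Gen M c r G →
    ∀ O, M O → RegO c r O → ((∃ p ∈ G, p ∈ O) ↔ ¬ ∃ p ∈ G, ∀ q, ZFSet.pair q p ∈ r → q ∉ O)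

end SF
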