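import Pool.Agent.H9.SF.WDefs
import Pool.Agent.H9.SF.FD2

/-! # Two-step forcing and the forcing axiom: definitions and targets (part Q)

`B` is an algebra, `mu` a nonempty set, `ρ : mu × mu → B` a `B`-preorder of `mu`: `app ρ (ξ, η)` is
the Boolean value of `ξ ≤ η` (`ξ` is stronger). -/

set_option linter.unusedVariables false

open Ordinal Cardinal Order Set
open scoped ZFSet

namespace SF

/-- the conditions `(b, ξ)` -/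
noncomputable def qS (B mu : V) : V := ZFSet.prod (pos B) mu

/-- `(b, ξ) ≤ (b', ξ')` iff `b ⊆ b'` and `b ⊆ ρ (ξ, ξ')` -/
noncomputable def qR (B mu ρ : V) : V :=
  (ZFSet.prod (qS B mu) (qS B mu)).sep fun z => fst (fst z) ⊆ fst (snd z) ∧
    fst (fst z) ⊆ app ρ (ZFSet.pair (snd (fst z)) (snd (snd z)))

/-- the order of the two-step forcing as a relation -/
def leQ (B mu ρ q q' : V) : Prop := ZFSet.pair q q' ∈ qR B mu ρ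

/-- `ρ` is a `B`-preorder of `mu` -/
structure BPre (B mu ρ : V) : Prop where
  ne : mu.Nonempty
  func : ZFSet.IsFunc (ZFSet.prod mu mu) B ρ
  refl : ∀ ξ ∈ mu, ∀ b ∈ B, b ⊆ app ρ (ZFSet.pair ξ ξ)
  trans : ∀ ξ ∈ mu, ∀ η ∈ mu, ∀ ζ ∈ mu,
    app ρ (ZFSet.pair ξ η) ∩ app ρ (ZFSet.pair η ζ) ⊆ app ρ (ZFSet.pair ξ ζ)

/-- the value of the complete embedding at `b` -/
noncomputable def kS (B mu b : V) : V := (qS B mu).sep fun q => fst q ⊆ b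

/-- `C` is the algebra of the two-step forcing, `k` is the embedding of `A` -/
structure TwoSt (A : BA) (mu ρ : V) (C : BA) (k : BMor A C) : Prop where
  alg : C.B = RO (qS A.B mu) (leQ A.B mu ρ)
  map : ∀ b, (k b).val = kS A.B mu b.val

/-- the values of `ρ` -/
noncomputable def rv (A : BA) (ρ ξ η : V) : El A.B := mkEl A.B (app ρ (ZFSet.pair ξ η))

/-- the regular open set generated by `(⊤, ξ)` -/
noncomputable def c1 (A C : BA) (mu ρ ξ : V) : El C.B :=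
  mkEl C.B (cl (qS A.B mu) (leQ A.B mu ρ) (ZFSet.pair (⊤ : El A.B).val ξ))

/-- QA. Existence of the two-step algebra. -/
def T_QA : Prop := (∀ (M : V → Prop) (B mu ρ : V), CBAr M B → B ≠ {∅} → BPre B mu ρ →
    IsPo (qS B mu) (qR B mu ρ)) ∧
  ∀ (A : BA) (mu ρ : V), A.B ≠ {∅} → BPre A.B mu ρ →
    (∃ (C : BA) (k : BMor A C), TwoSt A mu ρ C k) ∧
    ∀ (C : BA) (k : BMor A C), TwoSt A mu ρ C k →
      k ⊤ = ⊤ ∧ (∀ x, k x = ⊥ → x = ⊥) ∧ (∀ x, k.proj (k x) = x) ∧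
      ∀ b ξ, b ≠ ⊥ → ξ ∈ mu →
        (∀ Z : El C.B, ZFSet.pair b.val ξ ∈ Z.val ↔ k b ⊓ c1 A C mu ρ ξ ≤ Z) ∧
        (k b ⊓ c1 A C mu ρ ξ).val = cl (qS A.B mu) (leQ A.B mu ρ) (ZFSet.pair b.val ξ) ∧
        k.proj (k b ⊓ c1 A C mu ρ ξ) = b

/-- QB. Boolean facts. -/
def T_QB : Prop := ∀ (A : BA) (mu ρ : V), A.B ≠ {∅} → BPre A.B mu ρ →
  ∀ (C : BA) (k : BMor A C), TwoSt A mu ρ C k →
    (∀ ξ ∈ mu, ∀ η ∈ mu, c1 A C mu ρ ξ ⊓ k (rv A ρ ξ η) ≤ c1 A C mu ρ η) ∧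
    (∀ ξ ∈ mu, ∀ η ∈ mu, c1 A C mu ρ ξ ⊓ c1 A C mu ρ η ≤
      ⨆ ζ : El mu, c1 A C mu ρ ζ.val ⊓ k (rv A ρ ζ.val ξ ⊓ rv A ρ ζ.val η)) ∧
    (∀ d : V → El A.B, (∀ b ≠ ⊥, ∀ ξ ∈ mu, ∃ b1 ≠ ⊥, b1 ≤ b ∧ ∃ η ∈ mu, b1 ≤ rv A ρ η ξ ⊓ d η) →
      ⨆ ξ : El mu, c1 A C mu ρ ξ.val ⊓ k (d ξ.val) = ⊤) ∧
    ∀ Z : El C.B, (∀ ξ ∈ mu, Z ⊓ c1 A C mu ρ ξ = ⊥) → Z = ⊥

/-- `d` is the name of a dense set -/
def DnsQ (A : BA) (mu ρ : V) (d : V → El A.B) : Prop :=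
  ∀ b ≠ ⊥, ∀ ξ ∈ mu, ∃ b1 ≠ ⊥, b1 ≤ b ∧ ∃ η ∈ mu, b1 ≤ rv A ρ η ξ ⊓ d η

/-- QC. Names of a directed system of conditions. -/
def T_QC : Prop := ∀ (A : BA) (mu ρ : V), A.B ≠ {∅} → BPre A.B mu ρ →
  ∀ (C : BA) (k : BMor A C), TwoSt A mu ρ C k →
  ∀ d : Ordinal.{0} → V → El A.B, (∀ i < o1, DnsQ A mu ρ (d i)) →
    ∃ (s : Ordinal.{0} → V → El C.B) (m : Ordinal.{0} → Ordinal.{0})
      (p : Ordinal.{0} → Ordinal.{0} → Ordinal.{0}),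
      (∀ n < o1, ⨆ ξ : El mu, s n ξ.val = ⊤) ∧
      (∀ n < o1, ∀ ξ ∈ mu, ∀ η ∈ mu, ξ ≠ η → s n ξ ⊓ s n η = ⊥) ∧
      (∀ i < o1, m i < o1 ∧ ∀ ξ ∈ mu, s (m i) ξ ≤ k (d i ξ)) ∧
      ∀ n < o1, ∀ l < o1, p n l < o1 ∧ ∀ ζ ∈ mu, ∀ ξ ∈ mu,
        s (p n l) ζ ⊓ s n ξ ≤ k (rv A ρ ζ ξ) ∧ s (p n l) ζ ⊓ s l ξ ≤ k (rv A ρ ζ ξ)

/-- the two-step embedding is good below `b` -/
def GoodQ (A : BA) (mu ρ b : V) : Prop :=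
  ∃ (C : BA) (k : BMor A C), TwoSt A mu ρ C k ∧ Good (k.res (k (mkEl A.B b)))

/-- The forcing axiom for two-step embeddings, with names: a directed system of conditions which
meets `ω₁` dense sets. -/
def FA2 (A : BA) : Prop := ∀ mu ρ b0 : V, BPre A.B mu ρ → GoodQ A mu ρ b0 →
  ∀ d : Ordinal.{0} → V → El A.B, (∀ i < o1, DnsQ A mu ρ (d i)) →
  ∀ b : El A.B, b ≠ ⊥ → b.val ⊆ b0 → b0 ∈ A.B →
    ∃ b2 ≤ b, b2 ≠ ⊥ ∧ ∃ (s : Ordinal.{0} → V → El A.B) (m : Ordinal.{0} → Ordinal.{0})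
      (p : Ordinal.{0} → Ordinal.{0} → Ordinal.{0}),
      (∀ n < o1, ⨆ ξ : El mu, s n ξ.val = b2) ∧
      (∀ n < o1, ∀ ξ ∈ mu, ∀ η ∈ mu, ξ ≠ η → s n ξ ⊓ s n η = ⊥) ∧
      (∀ i < o1, m i < o1 ∧ ∀ ξ ∈ mu, s (m i) ξ ≤ d i ξ) ∧
      ∀ n < o1, ∀ l < o1, p n l < o1 ∧ ∀ ζ ∈ mu, ∀ ξ ∈ mu,
        s (p n l) ζ ⊓ s n ξ ≤ rv A ρ ζ ξ ∧ s (p n l) ζ ⊓ s l ξ ≤ rv A ρ ζ ξ

/-- QD. -/
def T_QD : Prop := ∀ A : BA, A.B ≠ {∅} → FAx A → FA2 A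

/-! ## The same for models -/

/-- `d` is the name of an `o`-sequence of dense sets -/
def DnsS (o B mu ρ d : V) : Prop := ZFSet.IsFunc (ZFSet.prod o mu) B d ∧
  ∀ i ∈ o, ∀ b ∈ B, b ≠ ∅ → ∀ ξ ∈ mu, ∃ b1 ∈ B, b1 ≠ ∅ ∧ b1 ⊆ b ∧ ∃ η ∈ mu,
    b1 ⊆ app ρ (ZFSet.pair η ξ) ∩ app d (ZFSet.pair i η)

/-- `s, m, p` is the name, below `b2`, of a directed system of conditions which meets the dense
sets with the name `d` -/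
structure DirS (o B mu ρ d b2 s m p : V) : Prop where
  fs : ZFSet.IsFunc (ZFSet.prod o mu) B s
  fm : ZFSet.IsFunc o o m
  fp : ZFSet.IsFunc (ZFSet.prod o o) o p
  sup : ∀ n ∈ o, ∀ x ∈ B, x ≠ ∅ → x ⊆ b2 → ∃ ξ ∈ mu, x ∩ app s (ZFSet.pair n ξ) ≠ ∅
  dis : ∀ n ∈ o, ∀ ξ ∈ mu, ∀ η ∈ mu, ξ ≠ η →
    app s (ZFSet.pair n ξ) ∩ app s (ZFSet.pair n η) = ∅
  mts : ∀ i ∈ o, ∀ ξ ∈ mu, app s (ZFSet.pair (app m i) ξ) ⊆ app d (ZFSet.pair i ξ)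
  dir : ∀ n ∈ o, ∀ l ∈ o, ∀ ζ ∈ mu, ∀ ξ ∈ mu,
    app s (ZFSet.pair (app p (ZFSet.pair n l)) ζ) ∩ app s (ZFSet.pair n ξ) ⊆
        app ρ (ZFSet.pair ζ ξ) ∧
      app s (ZFSet.pair (app p (ZFSet.pair n l)) ζ) ∩ app s (ZFSet.pair l ξ) ⊆
        app ρ (ZFSet.pair ζ ξ)

/-- `FA2` in a model, for one two-step forcing -/
def FA2s (M : V → Prop) (o B mu ρ b0 : V) : Prop := ∀ d, M d → DnsS o B mu ρ d →
  ∀ b ∈ B, b ≠ ∅ → b ⊆ b0 → ∃ b2 ∈ B, b2 ≠ ∅ ∧ b2 ⊆ b ∧ ∃ s, M s ∧ ∃ m, M m ∧ ∃ p, M p ∧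
    DirS o B mu ρ d b2 s m p

/-- QH. Definability and translation. -/
def T_QH : Prop := Tm ZFm (fun _ v => qS (v 0) (v 1)) ∧ Tm ZFm (fun _ v => qR (v 0) (v 1) (v 2)) ∧
  Dfb ZFm (fun _ v => BPre (v 0) (v 1) (v 2)) ∧ Tm ZFm (fun _ v => kS (v 0) (v 1) (v 2)) ∧
  Dfb ZFm (fun M v => FA2s M (v 0) (v 1) (v 2) (v 3) (v 4))

/-- QI. -/
def T_QI : Prop := ∀ A : BA, FA2 A → ∀ mu ρ b0, BPre A.B mu ρ → GoodQ A mu ρ b0 → b0 ∈ A.B →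
  FA2s Al w1 A.B mu ρ b0

/-- the preorder of `mu` which is given by `ρ` and a generic filter -/
noncomputable def rt (mu ρ G : V) : V := (ZFSet.prod mu mu).sep fun z => app ρ z ∈ G

/-- QE. Every preorder of `mu` in the extension is given by a `B`-preorder. -/
def T_QE : Prop := ∀ (M : V → Prop) (B G mu rr : V), ZFm M → {x | M x}.Countable → M B →
  CBAr M B → B ≠ {∅} → Gen M (pos B) (incl B) G → M mu → Ext M G rr → IsPo mu rr →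
  ∃ ρ, M ρ ∧ BPre B mu ρ ∧ rt mu ρ G = rr

/-- QF. Every sequence of dense sets in the extension has a good name. -/
def T_QF : Prop := ∀ (M : V → Prop) (B G o mu ρ D : V), ZFm M → {x | M x}.Countable → M B →
  CBAr M B → B ≠ {∅} → Gen M (pos B) (incl B) G → M o → M mu → M ρ → BPre B mu ρ → Ext M G D →
  (∀ i ∈ o, IsDense mu (rt mu ρ G) (app D i)) →
  ∃ d, M d ∧ DnsS o B mu ρ d ∧ ∀ i ∈ o, ∀ ξ ∈ mu, ξ ∈ app D i ↔ app d (ZFSet.pair i ξ) ∈ G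

/-- TSA. A generic filter of the two-step forcing from two generic filters. -/
def T_TSA : Prop := ∀ (M : V → Prop) (B G mu ρ H : V), ZFm M → M B → CBAr M B → B ≠ {∅} →
  Gen M (pos B) (incl B) G → M mu → M ρ → BPre B mu ρ →
  Gen (Ext M G) mu (rt mu ρ G) H → Gen M (qS B mu) (qR B mu ρ) (ZFSet.prod G H)

/-- TSB. A generic filter of the two-step forcing gives two generic filters. -/
def T_TSB : Prop := ∀ (M : V → Prop) (B mu ρ K : V), ZFm M → {x | M x}.Countable → M B →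
  CBAr M B → B ≠ {∅} → M mu → M ρ → BPre B mu ρ → Gen M (qS B mu) (qR B mu ρ) K →
  Gen M (pos B) (incl B) (dm K) ∧ Gen (Ext M (dm K)) mu (rt mu ρ (dm K)) (rg K) ∧
  K = ZFSet.prod (dm K) (rg K)

/-- TSC. Generic filters on a forcing notion of a model `N` and on its algebra `C` of regular open
sets in `N`. -/
def T_TSC : Prop := ∀ (N c r C G : V), ZFm (· ∈ N) → c ∈ N → r ∈ N → C ∈ N → IsPo c r →
  (∀ O ∈ N, O ∈ C ↔ RegO c r O) → NGen N C G →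
  Gen (· ∈ N) c r (c.sep fun q => cl c (fun a b => ZFSet.pair a b ∈ r) q ∈ G) ∧
  ∀ O ∈ C, O ∈ G ↔ ∃ q ∈ O, cl c (fun a b => ZFSet.pair a b ∈ r) q ∈ G

/-- CL. Subcomplete forcing notions of the final model give good embeddings. -/
def T_CL : Prop := ∀ A : BA, Good (bas A) → A.B ≠ {∅} →
  ∃ (ι : Type) (_ : Countable ι) (R : ι → (ℕ → V) → Prop), (∀ n, FinSup (R n)) ∧
    ∀ (M : V) (j : V → V), Mdl M j → (∀ n, Skm M j (R n)) → ∀ B ∈ M, j B = A.B →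
    ∀ G, Gen (· ∈ M) (pos B) (incl B) G →
    ∀ mu ∈ M, IsOrd mu → ∀ ρ ∈ M, BPre B mu ρ →
    ∀ c r e : V, Ext (· ∈ M) G c → Ext (· ∈ M) G r → Ext (· ∈ M) G e → IsPo c r → Onto e mu c →
    (∀ ξ ∈ mu, ∀ η ∈ mu, app ρ (ZFSet.pair ξ η) ∈ G ↔ ZFSet.pair (app e ξ) (app e η) ∈ r) →
    Subcomplete (Ext (· ∈ M) G) c r → ∃ b ∈ G, GoodQ A (j mu) (j ρ) (j b)

end SF
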