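import Pool.Agent.H9.SF.FDefs
import Pool.Agent.H45.SF.GT

/-! # The final model: definitions and targets (part W)

`M` is the transitive collapse of a countable elementary submodel of the universe which is closed
under countably many Skolem functions, `j : M → V` is the inverse of the collapse. -/

set_option linter.unusedVariables false

open Ordinal Cardinal Order Set
open scoped ZFSet

namespace SF

/-! ## Elementary embeddings of classes -/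

/-- the class of all sets -/
def Al : V → Prop := fun _ => True

/-- `j` is an elementary embedding of the class `M` into the class `N` -/
structure ElemC (M N : V → Prop) (j : V → V) : Prop where
  maps : ∀ x, M x → N (j x)
  el : ∀ (φ : Fml) (v : ℕ → V), In M v → (Sat M φ v ↔ Sat N φ fun i => j (v i))

/-- `M` and `N` satisfy the same sentences -/
def SameTh (M N : V → Prop) : Prop := ∀ φ : Fml, φ.bd = 0 → ∀ v w, (Sat M φ v ↔ Sat N φ w)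

/-- the class is transitive -/
def Trn (M : V → Prop) : Prop := ∀ x, M x → ∀ y ∈ x, M y

/-- WA. Definable relations and functions and elementary embeddings. -/
def T_WA : Prop := ∀ (K : (V → Prop) → Prop) (M N : V → Prop) (j : V → V), ElemC M N j → K M → K N →
  (∀ R, Dfb K R → ∀ v, In M v → (R M v ↔ R N fun i => j (v i))) ∧
  ∀ f, Tm K f → ∀ v, In M v → j (f M v) = f N fun i => j (v i)

/-- WB. Models with the same sentences satisfy the same axioms. -/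
def T_WB : Prop := ∀ M N : V → Prop, Trn M → Trn N → (∃ x, M x) → (∃ x, N x) → SameTh M N →
  (ZFm N → ZFm M) ∧ (ZFCm N → ZFCm M) ∧ (ZFC N → ZFC M)

/-- WC. The universe is a model of ZFC. -/
def T_WC : Prop := ZFC Al

/-- `M` is a countable transitive set and `j` is an elementary embedding of `M` into the
universe -/
structure Mdl (M : V) (j : V → V) : Prop where
  ne : M.Nonempty
  trans : M.IsTransitive
  ctb : (M : Set V).Countable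
  elem : ElemC (· ∈ M) Al j

/-- the image of `M` is closed under a Skolem function for the relation `R` -/
def Skm (M : V) (j : V → V) (R : (ℕ → V) → Prop) : Prop :=
  ∀ v : ℕ → V, (∀ i, v i ∈ M) → (∃ x, R (cons x fun i => j (v i))) →
    ∃ x ∈ M, R (cons (j x) fun i => j (v i))

/-- the relation depends on finitely many arguments -/
def FinSup (R : (ℕ → V) → Prop) : Prop := ∃ k, ∀ v w, (∀ i < k, v i = w i) → (R v ↔ R w)

/-- WD. Existence of countable models which are closed under countably many Skolem functions. -/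
def T_WD : Prop := ∀ (ι : Type) [Countable ι] (R : ι → (ℕ → V) → Prop), (∀ n, FinSup (R n)) →
  ∃ (M : V) (j : V → V), Mdl M j ∧ ∀ n, Skm M j (R n)

/-- WE. Basic facts. -/
def T_WE : Prop := ∀ (M : V) (j : V → V), Mdl M j →
  ZFC (· ∈ M) ∧ (∀ x ∈ M, ∀ y ∈ M, (j x = j y ↔ x = y) ∧ (j x ∈ j y ↔ x ∈ y)) ∧
  (∀ t ∈ M, t.IsTransitive → ((j t : V) : Set V).Countable → j t = t ∧ ∀ x ∈ t, j x = x) ∧
  (∀ x ∈ M, ((j x : V) : Set V).Countable → ∀ y ∈ j x, ∃ z ∈ x, j z = y) ∧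
  (∀ α : Ordinal.{0}, α.toZFSet ∈ M → ∃ β : Ordinal.{0}, j α.toZFSet = β.toZFSet) ∧
  ∀ o ∈ M, j o = w1 → ∃ α : Ordinal.{0}, o = α.toZFSet ∧ IsOmega1 (· ∈ M) α

/-! ## Boolean algebras in models -/

/-- `b` is the least upper bound of `S` in the algebra `B` -/
def LubB (B S b : V) : Prop := b ∈ B ∧ (∀ s ∈ S, s ⊆ b) ∧ ∀ b' ∈ B, (∀ s ∈ S, s ⊆ b') → b ⊆ b'

/-- `B` is a complete Boolean algebra in the sense of `M` -/
structure CBAr (M : V → Prop) (B : V) : Prop where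
  bot : ∅ ∈ B
  inter : ∀ x ∈ B, ∀ y ∈ B, x ∩ y ∈ B
  lub : ∀ S, M S → S ⊆ B → ∃ b, LubB B S b
  cpl : ∀ x ∈ B, ∃ y ∈ B, x ∩ y = ∅ ∧ (∀ z ∈ B, z ∩ x = ∅ → z ⊆ y) ∧ ∀ z ∈ B, z ∩ y = ∅ → z ⊆ x

/-- the nonempty elements of an algebra -/
noncomputable def pos (B : V) : V := B \ {∅}

/-- inclusion on the nonempty elements -/
noncomputable def incl (B : V) : V := (ZFSet.prod (pos B) (pos B)).sep fun z => fst z ⊆ snd z

/-- the Boolean value of a formula -/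
noncomputable def bv (M : V → Prop) (B : V) (φ : Fml) (v : ℕ → V) : V :=
  open Classical in
  if h : ∃ b, LubB B ((pos B).sep fun p => frc M (incl B) φ v p) b then h.choose else ∅

/-- WF. Definability. -/
def T_WF : Prop := Dfb ZFm (fun _ v => LubB (v 0) (v 1) (v 2)) ∧ Dfb ZFm (fun M v => CBAr M (v 0)) ∧
  Tm ZFm (fun _ v => pos (v 0)) ∧ Tm ZFm (fun _ v => incl (v 0)) ∧
  ∀ φ, Tm ZFm (fun M v => bv M (v 0) φ fun i => v (i + 1))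

/-- WG. Complete Boolean algebras in the universe, and in `M`. -/
def T_WG : Prop := (∀ B : V, IsCBA B ↔ CBAr Al B) ∧
  (∀ (B : V) [IsCBA B] (S : Set (El B)) (b : El B),
    LubB B (B.sep fun s => ∃ x : El B, x ∈ S ∧ x.val = s) b.val ↔ b = sSup S) ∧
  (∀ (M : V → Prop) (B : V), CBAr M B → B ≠ {∅} → IsPo (pos B) (incl B)) ∧
  ∀ (M : V → Prop) (B : V), CBAr M B →
    (∀ x ∈ B, ∀ y ∈ B, ¬ x ⊆ y → ∃ z ∈ B, z ≠ ∅ ∧ z ⊆ x ∧ z ∩ y = ∅) ∧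
    ∀ S b x, LubB B S b → S ⊆ B → x ∈ B → (∀ s ∈ S, s ∩ x = ∅) → b ∩ x = ∅

/-- WH. Generic filters on algebras: infima and suprema. -/
def T_WH : Prop := ∀ (M : V → Prop) (B G : V), ZFm M → M B → CBAr M B →
  Gen M (pos B) (incl B) G →
  (∀ x ∈ G, ∀ y ∈ G, x ∩ y ∈ G) ∧ (∀ x ∈ G, x ∈ B ∧ x ≠ ∅) ∧ (∀ x ∈ G, ∀ y ∈ B, x ⊆ y → y ∈ G) ∧
  (∀ x ∈ B, ∀ y ∈ B, x ∩ y = ∅ → LubB B {x, y} (⋃₀ B : ZFSet) → (x ∈ G ∨ y ∈ G)) ∧
  (∀ S b, M S → S ⊆ B → LubB B S b → (b ∈ G ↔ ∃ s ∈ S, s ∈ G)) ∧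
  ∀ S, M S → S ⊆ B → (∀ s ∈ S, s ∈ G) → ∃ b ∈ G, (∀ s ∈ S, b ⊆ s) ∧
    ∀ b' ∈ B, (∀ s ∈ S, b' ⊆ s) → b' ⊆ b

/-- WI. Boolean values. -/
def T_WI : Prop := ∀ (M : V → Prop) (B : V), ZFm M → M B → CBAr M B → B ≠ {∅} →
  ∀ (φ : Fml) (v : ℕ → V), In M v → bv M B φ v ∈ B ∧
    (∀ p ∈ pos B, p ⊆ bv M B φ v ↔ frc M (incl B) φ v p) ∧
    ∀ G, Gen M (pos B) (incl B) G → (bv M B φ v ∈ G ↔ Sat (Ext M G) φ fun i => val G (v i))


/-! ## Interface with the combinatorial part -/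

/-- `ω₁` as an ordinal -/
noncomputable abbrev o1 : Ordinal.{0} := Ordinal.omega.{0} 1

/-- The forcing axiom for good extensions of `B`, with names: below every `b` there are `b2` and a
function `F`, where `F c` is the Boolean value of `c ∈ F`; `F` is a filter on `C` which meets
`ω₁` given sets and which extends the generic filter of `B`. -/
def FAx (B : BA) : Prop := ∀ (C : BA) (k : BMor B C), Good k →
  ∀ D : Ordinal.{0} → Set (El C.B), (∀ i < o1, sSup (D i) = k ⊤) →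
  ∀ b : El B.B, b ≤ k.proj (k ⊤) → b ≠ ⊥ → ∃ b2 ≤ b, b2 ≠ ⊥ ∧ ∃ F : El C.B → El B.B,
    (∀ c d, F (c ⊓ d) = F c ⊓ F d) ∧ F ⊥ = ⊥ ∧ F (k ⊤) = b2 ∧ (∀ c, F c ≤ b2) ∧
    (∀ x, F (k x) = x ⊓ b2) ∧ ∀ i < o1, ⨆ d ∈ D i, F d = b2

/-- the part of the theorem which is proved in the universe -/
def VSide : Prop := ∃ B : BA, Good (bas B) ∧ FAx B ∧ B.B ≠ {∅}

/-! ### no new reals, countability of the guesses, clubs -/

/-- NB. The algebra adds no new function from `ω` to `ω₁`. -/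
def NBx (A : BA) : Prop := ∀ (F : ℕ → Ordinal.{0} → El A.B) (b : El A.B), b ≠ ⊥ →
  (∀ n, b ≤ ⨆ β ∈ Set.Iio o1, F n β) →
  ∃ b2 ≤ b, b2 ≠ ⊥ ∧ ∃ φ : ℕ → Ordinal.{0}, ∀ n, φ n < o1 ∧ b2 ≤ F n (φ n)

/-- CB. The terms of the generic sequence are countable. -/
def CBx (A : BA) : Prop := ∀ δ < o1, ∀ b : El A.B, b ≠ ⊥ → ∃ b2 ≤ b, b2 ≠ ⊥ ∧ ∃ Y : V,
  (Y : Set V).Countable ∧ (∀ S ∈ Y, S ⊆ δ.toZFSet ∧ b2 ≤ A.g (acc δ.toZFSet S)) ∧
    ∀ S, S ⊆ δ.toZFSet → S ∉ Y → b2 ⊓ A.g (acc δ.toZFSet S) = ⊥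

/-- `t` is a closed bounded nonempty subset of `o` -/
def Clb (o t : V) : Prop := t ⊆ o ∧ (∃ m ∈ t, ∀ x ∈ t, x ∈ m ∨ x = m) ∧
  ∀ α ∈ o, α ≠ ∅ → (∀ β ∈ α, ∃ γ ∈ t, β ∈ γ ∧ γ ∈ α) → α ∈ t

/-- `t` is an end extension of `t'` -/
def EEx (t t' : V) : Prop := t' ⊆ t ∧ ∀ x ∈ t, (∃ m ∈ t', x ∈ m ∨ x = m) → x ∈ t'

/-- the set of the closed bounded nonempty subsets of `ω₁` -/
noncomputable def Tcl : V := (ZFSet.powerset w1).sep fun t => Clb w1 t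

/-- the value of `X ∩ δ ∈ A_δ`, where `X` is the subset of `ω₁` with the values `r` -/
noncomputable def gval (A : BA) (r : Ordinal.{0} → El A.B) (δ : Ordinal.{0}) : El A.B :=
  ⨆ S : {S : V // S ⊆ δ.toZFSet}, A.g (acc δ.toZFSet S.1) ⊓
    ⨅ β : Set.Iio δ, open Classical in if β.1.toZFSet ∈ S.1 then r β.1 else (r β.1)ᶜ

/-- DB. Diamond-star, with names. -/
def DBx (A : BA) : Prop := ∀ (r : Ordinal.{0} → El A.B) (b : El A.B), b ≠ ⊥ →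
  ∃ b2 ≤ b, b2 ≠ ⊥ ∧ ∃ F : V → El A.B, (∀ t ∈ Tcl, F t ≤ b2) ∧
    (∀ t ∈ Tcl, ∀ t' ∈ Tcl, F t ⊓ F t' ≠ ⊥ → EEx t t' ∨ EEx t' t) ∧
    (∀ β < o1, b2 ≤ ⨆ t ∈ {t | t ∈ Tcl ∧ ∃ γ ∈ t, β.toZFSet ∈ γ}, F t) ∧
    ∀ t ∈ Tcl, ∀ δ < o1, δ.toZFSet ∈ t → F t ≤ gval A r δ

/-- XN. (part X) -/
def T_XN : Prop := ∀ A : BA, Good (bas A) → NBx A

/-- XC. -/
def T_XC : Prop := ∀ A : BA, CBx A

/-- XD. (part X) -/
def T_XD : Prop := ∀ A : BA, Good (bas A) → FAx A → DBx A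

/-! ### the same, for algebras in a model -/

/-- the function `(δ, S) ↦ ` the value of `S ∈ A_δ` -/
noncomputable def gaf (A : BA) : V :=
  resS ((ZFSet.prod w1 (ZFSet.powerset w1)).sep fun q => snd q ⊆ fst q)
    fun q => (A.g (acc (fst q) (snd q))).val

/-- NB in a model -/
def NBs (M : V → Prop) (o B : V) : Prop := ∀ F, M F → ZFSet.IsFunc (ZFSet.prod om o) B F →
  ∀ b ∈ B, b ≠ ∅ → (∀ n ∈ om, ∀ x ∈ B, x ≠ ∅ → x ⊆ b →
    ∃ β ∈ o, x ∩ app F (ZFSet.pair n β) ≠ ∅) →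
  ∃ b2 ∈ B, b2 ≠ ∅ ∧ b2 ⊆ b ∧ ∃ φ, M φ ∧ ZFSet.IsFunc om o φ ∧
    ∀ n ∈ om, b2 ⊆ app F (ZFSet.pair n (app φ n))

/-- CB in a model -/
def CBs (M : V → Prop) (o B ga : V) : Prop := ∀ δ ∈ o, ∀ b ∈ B, b ≠ ∅ →
  ∃ b2 ∈ B, b2 ≠ ∅ ∧ b2 ⊆ b ∧ ∃ Y, M Y ∧ Ctbl M Y ∧
    (∀ S ∈ Y, S ⊆ δ ∧ b2 ⊆ app ga (ZFSet.pair δ S)) ∧
    ∀ S, M S → S ⊆ δ → S ∉ Y → b2 ∩ app ga (ZFSet.pair δ S) = ∅

/-- `x` is below the value of `X ∩ δ ∈ A_δ`: each nonempty `y ⊆ x` has a nonempty subset `z`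
which decides `X ∩ δ` as `S` and is below the value of `S ∈ A_δ` -/
def gvs (M : V → Prop) (B ga r δ x : V) : Prop := ∀ y ∈ B, y ≠ ∅ → y ⊆ x →
  ∃ z ∈ B, z ≠ ∅ ∧ z ⊆ y ∧ ∃ S, M S ∧ S ⊆ δ ∧ z ⊆ app ga (ZFSet.pair δ S) ∧
    ∀ β ∈ δ, (β ∈ S → z ⊆ app r β) ∧ (β ∉ S → z ∩ app r β = ∅)

/-- DB in a model -/
def DBs (M : V → Prop) (o B ga T : V) : Prop := (∀ t ∈ T, Clb o t) ∧
  ∀ r, M r → ZFSet.IsFunc o B r → ∀ b ∈ B, b ≠ ∅ →
  ∃ b2 ∈ B, b2 ≠ ∅ ∧ b2 ⊆ b ∧ ∃ F, M F ∧ ZFSet.IsFunc T B F ∧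
    (∀ t ∈ T, ∀ t' ∈ T, app F t ∩ app F t' ≠ ∅ → EEx t t' ∨ EEx t' t) ∧
    (∀ β ∈ o, ∀ x ∈ B, x ≠ ∅ → x ⊆ b2 → ∃ t ∈ T, (∃ γ ∈ t, β ∈ γ) ∧ x ∩ app F t ≠ ∅) ∧
    ∀ t ∈ T, ∀ δ ∈ t, gvs M B ga r δ (app F t)

/-- WJ. Definability. -/
def T_WJ : Prop := Dfb ZFm (fun M v => NBs M (v 0) (v 1)) ∧
  Dfb ZFm (fun M v => CBs M (v 0) (v 1) (v 2)) ∧
  Dfb ZFm (fun M v => DBs M (v 0) (v 1) (v 2) (v 3))

/-- WK. The properties for the universe. -/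
def T_WK : Prop := ∀ A : BA, (NBx A → NBs Al w1 A.B) ∧ (CBx A → CBs Al w1 A.B (gaf A)) ∧
  (DBx A → DBs Al w1 A.B (gaf A) Tcl)

/-- the generic sequence in the extension -/
noncomputable def gsq (o ga G : V) : V :=
  resS o fun δ => (rg (dm ga)).sep fun S => ZFSet.pair δ S ∈ dm ga ∧ app ga (ZFSet.pair δ S) ∈ G

/-- WL. `ω₁` is preserved. -/
def T_WL : Prop := ∀ (M : V → Prop) (α : Ordinal.{0}) (B G : V), ZFCm M →
  {x | M x}.Countable → M B → CBAr M B →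
  B ≠ {∅} → IsOmega1 M α → NBs M α.toZFSet B → Gen M (pos B) (incl B) G →
  IsOmega1 (Ext M G) α

/-- WM. Diamond-star in the extension. -/
def T_WM : Prop := ∀ (M : V → Prop) (α : Ordinal.{0}) (B ga T G : V), ZFCm M →
  {x | M x}.Countable → M B → M ga → M T →
  CBAr M B → B ≠ {∅} → IsOmega1 M α → IsOmega1 (Ext M G) α → Gen M (pos B) (incl B) G →
  (∀ δ ∈ α.toZFSet, ∀ S, M S → S ⊆ δ → ZFSet.pair δ S ∈ dm ga) →
  (∀ z ∈ ga, ∃ δ ∈ α.toZFSet, ∃ S, S ⊆ δ ∧ ∃ x ∈ B, z = ZFSet.pair (ZFSet.pair δ S) x) → Svl ga →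
  CBs M α.toZFSet B ga → DBs M α.toZFSet B ga T → DiamondStar (Ext M G)

/-- W2. Diamond-star in the final model. -/
def T_W2 : Prop := ∀ A : BA, Good (bas A) → FAx A → A.B ≠ {∅} →
  ∃ a : V, ∀ (M : V) (j : V → V), Mdl M j → (∃ x ∈ M, j x = a) → ∀ B ∈ M, j B = A.B →
    ∀ G, Gen (· ∈ M) (pos B) (incl B) G → DiamondStar (· ∈ extS M G)

/-- W3. The forcing axiom in the final model. -/
def T_W3 : Prop := ∀ A : BA, Good (bas A) → FAx A → A.B ≠ {∅} →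
  ∃ (ι : Type) (_ : Countable ι) (R : ι → (ℕ → V) → Prop), (∀ n, FinSup (R n)) ∧
    ∀ (M : V) (j : V → V), Mdl M j → (∀ n, Skm M j (R n)) → ∀ B ∈ M, j B = A.B →
    ∀ G, Gen (· ∈ M) (pos B) (incl B) G → SCFA (· ∈ extS M G)

/-- WZ. The final model. -/
def T_WZ : Prop := VSide → Goal

end SF
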