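import Pool.Agent.H45.SF.Core

/-! # The final model: the forcing axiom for an arbitrary reading of subcompleteness -/

set_option linter.unusedVariables false

open Ordinal Cardinal Order Set
open scoped ZFSet

namespace SF

/-- the forcing axiom for the class `P` of forcing notions -/
def SCFAp (P : (V → Prop) → V → V → Prop) (W : V → Prop) : Prop :=
  ∀ c r, W c → W r → IsPo c r → P W c r →
    ∀ (o : Ordinal.{0}) (D : V), IsOmega1 W o → W D →
      (∀ i < o, IsDense c r (app D i.toZFSet)) →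
      ∃ F, W F ∧ IsFil c r F ∧ ∀ i < o, ∃ p ∈ F, p ∈ app D i.toZFSet

theorem scfa_iff (W : V → Prop) : SCFAp Subcomplete W ↔ SCFA W := Iff.rfl

theorem scfac_iff (W : V → Prop) : SCFAp SubCore W ↔ SCFAc W := Iff.rfl

/-- CL for the class `P` -/
def T_CLp (P : (V → Prop) → V → V → Prop) : Prop := ∀ A : BA, Good (bas A) → A.B ≠ {∅} →
  ∃ (ι : Type) (_ : Countable ι) (R : ι → (ℕ → V) → Prop), (∀ n, FinSup (R n)) ∧
    ∀ (M : V) (j : V → V), Mdl M j → (∀ n, Skm M j (R n)) → ∀ B ∈ M, j B = A.B →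
    ∀ G, Gen (· ∈ M) (pos B) (incl B) G →
    ∀ mu ∈ M, IsOrd mu → ∀ ρ ∈ M, BPre B mu ρ →
    ∀ c r e : V, Ext (· ∈ M) G c → Ext (· ∈ M) G r → Ext (· ∈ M) G e → IsPo c r → Onto e mu c →
    (∀ ξ ∈ mu, ∀ η ∈ mu, app ρ (ZFSet.pair ξ η) ∈ G ↔ ZFSet.pair (app e ξ) (app e η) ∈ r) →
    P (Ext (· ∈ M) G) c r → ∃ b ∈ G, GoodQ A (j mu) (j ρ) (j b)

theorem clp_iff : T_CLp Subcomplete ↔ T_CL := Iff.rfl

theorem clpc_iff : T_CLp SubCore ↔ T_CLc := Iff.rfl

/-- W3 for the class `P` -/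
def T_W3p (P : (V → Prop) → V → V → Prop) : Prop := ∀ A : BA, Good (bas A) → FAx A → A.B ≠ {∅} →
  ∃ (ι : Type) (_ : Countable ι) (R : ι → (ℕ → V) → Prop), (∀ n, FinSup (R n)) ∧
    ∀ (M : V) (j : V → V), Mdl M j → (∀ n, Skm M j (R n)) → ∀ B ∈ M, j B = A.B →
    ∀ G, Gen (· ∈ M) (pos B) (incl B) G → SCFAp P (· ∈ extS M G)

/-- the final statement with both readings of subcompleteness -/
def Goal2 : Prop :=
  ∃ W : V, (W : Set V).Countable ∧ ZFC (· ∈ W) ∧ SCFA (· ∈ W) ∧ SCFAc (· ∈ W) ∧ DiamondStar (· ∈ W)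

/-- W2 for the class: this is `T_WZ` with the stronger conclusion; `T_W3p SubCore` is the
hypothesis which replaces `T_W3` -/
def T_WZ2 : Prop := T_W3p SubCore → VSide → Goal2

end SF
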