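import Pool.Agent.H9.SF.Val

/-! # Forcing over transitive models of `ZFm`: definitions and targets (part F)

`(c, r)` is always a forcing notion of the model `M` (`IsPo c r`), `ZFSet.pair p q ∈ r` means that
`p` is stronger than `q`. Names are arbitrary elements of `M`; only their elements of the form
`(y, p)`, `p ∈ c`, matter. -/

set_option linter.unusedVariables false

open Ordinal
open scoped ZFSet

namespace SF

/-- `p` forces that the names `τ` and `σ` have the same value. -/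
def fE (r : V) (τ σ p : V) : Prop :=
  (∀ z (hz : z ∈ τ) (h : IsPr z) (q : V), ZFSet.pair q p ∈ r → ZFSet.pair q (snd z) ∈ r →
    ∃ q', ZFSet.pair q' q ∈ r ∧ ∃ z' ∈ σ, IsPr z' ∧ ZFSet.pair q' (snd z') ∈ r ∧
      fE r (fst z) (fst z') q') ∧
  (∀ z' ∈ σ, IsPr z' → ∀ q : V, ZFSet.pair q p ∈ r → ZFSet.pair q (snd z') ∈ r →
    ∃ q', ZFSet.pair q' q ∈ r ∧ ∃ z, ∃ (hz : z ∈ τ) (h : IsPr z), ZFSet.pair q' (snd z) ∈ r ∧
      fE r (fst z) (fst z') q')
termination_by τ.rank
decreasing_by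
  all_goals exact rank_fst_lt hz h

/-- `p` forces that the value of `π` is an element of the value of `τ`. -/
def fM (r : V) (π τ p : V) : Prop :=
  ∀ q, ZFSet.pair q p ∈ r → ∃ q', ZFSet.pair q' q ∈ r ∧ ∃ z ∈ τ, IsPr z ∧
    ZFSet.pair q' (snd z) ∈ r ∧ fE r π (fst z) q'

/-- The forcing relation over `M`: `p` forces `φ`, `v` is an assignment of names. -/
def frc (M : V → Prop) (r : V) : Fml → (ℕ → V) → V → Prop
  | .mem i j, v, p => fM r (v i) (v j) p
  | .eq i j, v, p => fE r (v i) (v j) p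
  | .prd _, _, _ => False
  | .neg φ, v, p => ∀ q, ZFSet.pair q p ∈ r → ¬ frc M r φ v q
  | .and φ ψ, v, p => frc M r φ v p ∧ frc M r ψ v p
  | .ex φ, v, p => ∀ q, ZFSet.pair q p ∈ r → ∃ q', ZFSet.pair q' q ∈ r ∧
      ∃ τ, M τ ∧ frc M r φ (cons τ v) q'

/-- the canonical name of `x` -/
noncomputable def ck (c x : V) : V :=
  ZFSet.range fun q : {q // q ∈ ZFSet.prod x c} => ZFSet.pair (ck c (fst q.1)) (snd q.1)
termination_by x.rank
decreasing_by
  obtain ⟨a, ha, b, -, h⟩ := ZFSet.mem_prod.1 q.2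
  rw [h, fst_pair]
  exact ZFSet.rank_lt_of_mem ha

/-- the canonical name of the generic filter -/
noncomputable def gn (c : V) : V := imS c fun p => ZFSet.pair (ck c p) p

/-- a name of the unordered pair -/
noncomputable def upn (c x y : V) : V := ZFSet.prod {x, y} c

/-- a name of the ordered pair -/
noncomputable def opn (c x y : V) : V := upn c (upn c x x) (upn c x y)

/-- the generic extension of a set -/
noncomputable def extS (N G : V) : V := imS N fun x => val G x

theorem mem_extS {N G y : V} : y ∈ extS N G ↔ Ext (· ∈ N) G y := by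
  unfold extS Ext
  rw [mem_imS]
  exact exists_congr fun x => and_congr_right fun _ => eq_comm

theorem ext_eq_extS (N G : V) : Ext (· ∈ N) G = (· ∈ extS N G) := by
  funext y
  exact propext mem_extS.symm

/-! ## Targets -/

/-- FA: the atomic relations are monotone and closed under density -/
def T_FA : Prop := ∀ c r : V, IsPo c r →
  (∀ τ σ p q, fE r τ σ p → ZFSet.pair q p ∈ r → fE r τ σ q) ∧
  (∀ τ σ p, (∀ q, ZFSet.pair q p ∈ r → ∃ q', ZFSet.pair q' q ∈ r ∧ fE r τ σ q') → fE r τ σ p) ∧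
  (∀ τ σ p q, fM r τ σ p → ZFSet.pair q p ∈ r → fM r τ σ q) ∧
  (∀ τ σ p, (∀ q, ZFSet.pair q p ∈ r → ∃ q', ZFSet.pair q' q ∈ r ∧ fM r τ σ q') → fM r τ σ p)

/-- FB: the atomic relations are definable (arguments: `r, τ, σ, p`) -/
def T_FB : Prop :=
  Dfb ZFm (fun _ v => fE (v 0) (v 1) (v 2) (v 3)) ∧ Dfb ZFm (fun _ v => fM (v 0) (v 1) (v 2) (v 3))

/-- FC: the forcing relation of each formula is definable (arguments `r, p`, then the names) -/
def T_FC : Prop := ∀ φ : Fml, Dfb ZFm (fun M v => frc M (v 0) φ (fun i => v (i + 2)) (v 1))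

/-- FD: the forcing relation is monotone and closed under density -/
def T_FD : Prop := ∀ (M : V → Prop) (c r : V), IsPo c r → ∀ (φ : Fml) (v : ℕ → V),
  (∀ p q, frc M r φ v p → ZFSet.pair q p ∈ r → frc M r φ v q) ∧
  (∀ p ∈ c, (∀ q, ZFSet.pair q p ∈ r → ∃ q', ZFSet.pair q' q ∈ r ∧ frc M r φ v q') →
    frc M r φ v p)

/-- FE: a generic filter meets every set of the model which is dense below an element of the
filter -/
def T_FE : Prop := ∀ (M : V → Prop) (c r G D p : V), ZFm M → M c → M r → IsPo c r →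
  Gen M c r G → M D → p ∈ G → (∀ q, ZFSet.pair q p ∈ r → ∃ d ∈ D, ZFSet.pair d q ∈ r) →
  ∃ d ∈ G, d ∈ D ∧ ZFSet.pair d p ∈ r

/-- FF: truth lemma for the atomic formulas -/
def T_FF : Prop := ∀ (M : V → Prop) (c r G : V), ZFm M → M c → M r → IsPo c r → Gen M c r G →
  ∀ τ σ, M τ → M σ →
    (val G τ = val G σ ↔ ∃ p ∈ G, fE r τ σ p) ∧ (val G τ ∈ val G σ ↔ ∃ p ∈ G, fM r τ σ p)

/-- FG: truth lemma -/
def T_FG : Prop := ∀ (M : V → Prop) (c r G : V), ZFm M → M c → M r → IsPo c r → Gen M c r G →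
  ∀ (φ : Fml) (v : ℕ → V), In M v →
    (Sat (Ext M G) φ (fun i => val G (v i)) ↔ ∃ p ∈ G, frc M r φ v p)

/-- FH: canonical names -/
def T_FH : Prop :=
  (∀ c x y : V, y ∈ ck c x ↔ ∃ z ∈ x, ∃ p ∈ c, y = ZFSet.pair (ck c z) p) ∧
  (∀ c G x : V, G ⊆ c → G.Nonempty → val G (ck c x) = x) ∧
  (∀ c G : V, G ⊆ c → G.Nonempty → val G (gn c) = G) ∧
  (∀ c G x y : V, G ⊆ c → G.Nonempty → val G (upn c x y) = {val G x, val G y}) ∧
  (∀ c G x y : V, G ⊆ c → G.Nonempty → val G (opn c x y) = ZFSet.pair (val G x) (val G y)) ∧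
  Tm ZFm (fun _ v => ck (v 0) (v 1)) ∧ Tm ZFm (fun _ v => gn (v 0)) ∧
  Tm ZFm (fun _ v => upn (v 0) (v 1) (v 2)) ∧ Tm ZFm (fun _ v => opn (v 0) (v 1) (v 2))

/-- FI: the generic extension is a model of `ZFm` which contains `M` and `G` -/
def T_FI : Prop := ∀ (M : V → Prop) (c r G : V), ZFm M → M c → M r → IsPo c r → Gen M c r G →
  ZFm (Ext M G) ∧ (∀ x, M x → Ext M G x) ∧ Ext M G G

/-- FJ: choice in the generic extension -/
def T_FJ : Prop := ∀ (M : V → Prop) (c r G : V), ZFCm M → M c → M r → IsPo c r → Gen M c r G →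
  ZFCm (Ext M G)

/-- FK: power sets in the generic extension -/
def T_FK : Prop := ∀ (M : V → Prop) (c r G : V), ZFC M → M c → M r → IsPo c r → Gen M c r G →
  ZFC (Ext M G)

/-- FL: ranks and ordinals -/
def T_FL : Prop :=
  Tm ZFm (fun _ v => (v 0).rank.toZFSet) ∧ (∀ G x : V, (val G x).rank ≤ x.rank) ∧
  (∀ (M : V → Prop) (G : V) (α : Ordinal.{0}), ZFm M → Ext M G α.toZFSet → M α.toZFSet)

/-- FM: existence of generic filters over countable models -/
def T_FM : Prop := ∀ (M : V → Prop) (c r p : V), {x | M x}.Countable → IsPo c r → p ∈ c →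
  ∃ G, Gen M c r G ∧ p ∈ G

/-- FN: minimality of the generic extension -/
def T_FN : Prop := ∀ (M M' : V → Prop) (G : V), ZFm M' → (∀ x, M x → M' x) → M' G →
  ∀ y, Ext M G y → M' y

/-- FO: an elementary map `f : N' → N` which maps a generic filter `G'` into the generic filter
`G` extends to an elementary map of the generic extensions -/
def T_FO : Prop := ∀ (N' N f c' r' c r G' G : V), IsElem N' N f → ZFm (· ∈ N') → ZFm (· ∈ N) →
  c' ∈ N' → r' ∈ N' → app f c' = c → app f r' = r → IsPo c' r' → IsPo c r →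
  Gen (· ∈ N') c' r' G' → Gen (· ∈ N) c r G → (∀ p ∈ G', app f p ∈ G) →
  ∃ g, IsElem (extS N' G') (extS N G) g ∧ (∀ x ∈ N', app g x = app f x) ∧ app g G' = G ∧
    ∀ x ∈ N', app g (val G' x) = val G (app f x)

/-- FP: forcing equals truth in all generic extensions, for countable models -/
def T_FP : Prop := ∀ (M : V → Prop) (c r : V), ZFm M → {x | M x}.Countable → M c → M r → IsPo c r →
  ∀ (φ : Fml) (v : ℕ → V), In M v → ∀ p ∈ c,
    (frc M r φ v p ↔ ∀ G, Gen M c r G → p ∈ G → Sat (Ext M G) φ (fun i => val G (v i)))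

end SF
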