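import Pool.Agent.H9.SF.Bas

/-! The recursion theorem for uniformly definable functions over models of `ZFm`. -/

set_option linter.unusedVariables false

open Ordinal
open scoped ZFSet

namespace SF

variable {K : (V → Prop) → Prop} {R R' : (V → Prop) → (ℕ → V) → Prop}
  {f g h : (V → Prop) → (ℕ → V) → V}

/-- put a definable function in front of a renamed assignment -/
theorem Tm.push (hf : Tm K f) (hg : Tm K g) (ρ : ℕ → ℕ) :
    Tm K (fun M v => f M (cons (g M v) fun i => v (ρ i))) := by
  refine (hf.comp (fun i => match i with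
    | 0 => g
    | i + 1 => fun _ v => v (ρ i)) (fun i => ?_)).congr fun M k v hv => ?_
  · cases i with
    | zero => exact hg
    | succ i => exact Tm.var _
  · show f M _ = f M _
    congr 1
    funext i
    cases i <;> rfl

theorem Dfb.push (hR : Dfb K R) (hg : Tm K g) (ρ : ℕ → ℕ) :
    Dfb K (fun M v => R M (cons (g M v) fun i => v (ρ i))) := by
  refine (hR.comp (fun i => match i with
    | 0 => g
    | i + 1 => fun _ v => v (ρ i)) (fun i => ?_)).congr fun M k v hv => ?_
  · cases i with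
    | zero => exact hg
    | succ i => exact Tm.var _
  · have e : (fun i => (match i with
      | 0 => g
      | i + 1 => fun _ v => v (ρ i) : (V → Prop) → (ℕ → V) → V) M v) =
        cons (g M v) fun i => v (ρ i) := by
      funext i
      cases i <;> rfl
    rw [e]

theorem cons_shr_one (x : V) (w : ℕ → V) :
    (fun i => cons x w (shr 1 i)) = cons x fun i => w (i + 1) := by
  funext i; cases i <;> rfl

/-- `g = w 0` is an attempt for the recursion with parameters `w 1, w 2, ...` -/
def Att (ext Φ : (V → Prop) → (ℕ → V) → V) (M : V → Prop) (w : ℕ → V) : Prop :=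
  ∀ x ∈ dm (w 0), ext M (cons x fun i => w (i + 1)) ⊆ dm (w 0) ∧
    app (w 0) x = Φ M (cons (resS (ext M (cons x fun i => w (i + 1))) fun y => app (w 0) y)
      (cons x fun i => w (i + 1)))

theorem dfb_att {ext Φ : (V → Prop) → (ℕ → V) → V} (hext : Tm ZFm ext) (hΦ : Tm ZFm Φ) :
    Dfb ZFm (Att ext Φ) := by
  have he : Tm ZFm (fun M u => ext M fun i => u (shr 1 i)) := hext.rn _
  have hA : Tm ZFm (fun M u => resS (ext M fun i => u (shr 1 i)) fun y => app (u 1) y) :=
    Tm.resS (g := fun _ u => app (u 2) (u 0)) he (Tm.app (Tm.var 2) (Tm.var 0))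
  have hP : Tm ZFm (fun M u => Φ M (cons (resS (ext M fun i => u (shr 1 i)) fun y => app (u 1) y)
      fun i => u (shr 1 i))) := hΦ.push hA _
  refine (Dfb.ball (R := fun M u => (ext M fun i => u (shr 1 i)) ⊆ dm (u 1) ∧
    app (u 1) (u 0) = Φ M (cons (resS (ext M fun i => u (shr 1 i)) fun y => app (u 1) y)
      fun i => u (shr 1 i))) ktr_zfm (Tm.dm (Tm.var 0))
    ((Dfb.subset he (Tm.dm (Tm.var 1))).and (Dfb.eq (Tm.app (Tm.var 1) (Tm.var 0)) hP))).congr
    fun M k w hw => ?_
  unfold Att
  refine forall_congr' fun x => imp_congr_right fun _ => ?_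
  rw [cons_shr_one]
  rfl

/-- The recursion theorem: a function which satisfies a recursion equation with definable data is
definable. -/
theorem tm_recu {F ext Φ : (V → Prop) → (ℕ → V) → V} (m : V → Ordinal.{0})
    (hext : Tm ZFm ext) (hΦ : Tm ZFm Φ)
    (hdec : ∀ M, ZFm M → ∀ v, In M v → ∀ y ∈ ext M v, m y < m (v 0))
    (hF : ∀ M, ZFm M → ∀ v, In M v → F M v =
      Φ M (cons (resS (ext M v) fun y => F M (cons y fun i => v (i + 1))) v)) :
    Tm ZFm F := by
  -- attempts have the right values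
  have key : ∀ M, ZFm M → ∀ p, In M p → ∀ g, M g → Att ext Φ M (cons g p) →
      ∀ x, M x → x ∈ dm g → app g x = F M (cons x p) := by
    intro M k p hp g hg hA x
    induction hx : m x using WellFoundedLT.induction generalizing x with
    | _ a ih =>
      intro hxM hxg
      obtain ⟨h1, h2⟩ := hA x hxg
      have h3 : app g x = Φ M (cons (resS (ext M (cons x p)) fun y => app g y) (cons x p)) := h2
      rw [h3, hF M k _ (hp.cons hxM)]
      congr 2
      refine resS_congr fun y hy => ?_
      have hyM : M y := k.trans _ (hext.1 M k _ (hp.cons hxM)) y hy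
      refine ih (m y) ?_ y rfl hyM (h1 hy)
      rw [← hx]
      exact hdec M k _ (hp.cons hxM) y hy
  -- a function with the right values and closed domain is an attempt
  have key2 : ∀ M, ZFm M → ∀ p, In M p → ∀ g, M g → (∀ x, x ∈ dm g → M x) →
      (∀ x ∈ dm g, ext M (cons x p) ⊆ dm g) → (∀ x ∈ dm g, app g x = F M (cons x p)) →
      Att ext Φ M (cons g p) := by
    intro M k p hp g hg h0 h1 h2 x hx
    refine ⟨h1 x hx, ?_⟩
    have h3 : app g x = Φ M (cons (resS (ext M (cons x p)) fun y => app g y) (cons x p)) := by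
      rw [h2 x hx, hF M k _ (hp.cons (h0 x hx))]
      congr 2
      refine resS_congr fun y hy => ?_
      exact (h2 y (h1 x hx hy)).symm
    exact h3
  -- the function which glues the attempts in a set
  have hsep : Tm ZFm (fun M u => (u 0).sep fun g => Att ext Φ M (cons g fun i => u (i + 2))) := by
    refine (Tm.sep (R := fun M w => Att ext Φ M fun i => w (match i with
      | 0 => 0
      | i + 1 => i + 3)) ((dfb_att hext hΦ).rn _) (Tm.var 0)).congr fun M k u hu => ?_
    congr 1
  have hg0 : Tm ZFm (fun M u => (⋃₀ (imS ((u 0).sep fun g =>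
      Att ext Φ M (cons g fun i => u (i + 2))) fun g => resS (dm g) fun y => app g y) : ZFSet)) :=
    Tm.iUn (g := fun _ u => resS (dm (u 0)) fun y => app (u 0) y) hsep
      (Tm.resS (g := fun _ u => app (u 1) (u 0)) (Tm.dm (Tm.var 0)) (Tm.app (Tm.var 1) (Tm.var 0)))
  have hex : ∀ M, ZFm M → ∀ p, In M p → ∀ x, M x →
      ∃ g, M g ∧ Att ext Φ M (cons g p) ∧ x ∈ dm g := by
    intro M k p hp x
    induction hx : m x using WellFoundedLT.induction generalizing x with
    | _ a ih =>
      intro hxM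
      have heM : M (ext M (cons x p)) := hext.1 M k _ (hp.cons hxM)
      have h1 : ∀ y ∈ ext M (cons x p), ∃ g, M g ∧ Att ext Φ M (cons g p) ∧ y ∈ dm g := by
        intro y hy
        refine ih (m y) ?_ y rfl (k.trans _ heM y hy)
        rw [← hx]
        exact hdec M k _ (hp.cons hxM) y hy
      -- collection
      obtain ⟨ψ, hψ⟩ : Dfb ZFm (fun M w => Att ext Φ M (fun i => w (shr 1 i)) ∧ w 1 ∈ dm (w 0)) :=
        ((dfb_att hext hΦ).rn _).and (Dfb.mem (Tm.var 1) (Tm.dm (Tm.var 0)))
      have hψ2 : ∀ y g, M y → M g → (Sat M ψ (cons g (cons y p)) ↔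
          Att ext Φ M (cons g p) ∧ y ∈ dm g) := by
        intro y g hy hg
        have h2 : Sat M ψ (cons g (cons y p)) ↔ (Att ext Φ M fun i => (cons g (cons y p)) (shr 1 i)) ∧
          y ∈ dm g := hψ M k (cons g (cons y p)) ((hp.cons hy).cons hg)
        rw [cons_shr_one] at h2
        exact h2
      obtain ⟨b, hb, hb2⟩ := k.coll ψ p (ext M (cons x p)) hp heM (by
        intro y hy
        obtain ⟨g, hg, h2, h3⟩ := h1 y hy
        exact ⟨g, hg, (hψ2 y g (k.trans _ heM y hy) hg).2 ⟨h2, h3⟩⟩)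
      -- glue
      obtain ⟨g0, hg0M, hg0e⟩ : ∃ g0, M g0 ∧ g0 = (⋃₀ (imS (b.sep fun g =>
          Att ext Φ M (cons g p)) fun g => resS (dm g) fun y => app g y) : ZFSet) :=
        ⟨_, hg0.1 M k (cons b (cons x p)) ((hp.cons hxM).cons hb), rfl⟩
      have hg0p : ∀ y z, ZFSet.pair y z ∈ g0 ↔
          ∃ g ∈ b, Att ext Φ M (cons g p) ∧ y ∈ dm g ∧ z = F M (cons y p) := by
        intro y z
        rw [hg0e]
        simp only [ZFSet.mem_sUnion, mem_imS, ZFSet.mem_sep]
        constructor
        · rintro ⟨_, ⟨g, ⟨hgb, hgA⟩, rfl⟩, h2⟩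
          rw [pair_mem_resS] at h2
          have hgM := k.trans _ hb g hgb
          have hyM : M y := (k.of_pair_mem hgM (mem_dm.1 h2.1).choose_spec).1
          exact ⟨g, hgb, hgA, h2.1, h2.2.trans (key M k p hp g hgM hgA y hyM h2.1)⟩
        · rintro ⟨g, hgb, hgA, hy, hz⟩
          have hgM := k.trans _ hb g hgb
          have hyM : M y := (k.of_pair_mem hgM (mem_dm.1 hy).choose_spec).1
          refine ⟨_, ⟨g, ⟨hgb, hgA⟩, rfl⟩, ?_⟩
          rw [pair_mem_resS]
          exact ⟨hy, hz.trans (key M k p hp g hgM hgA y hyM hy).symm⟩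
      have hsv0 : Svl g0 := by
        intro y z z' h2 h3
        obtain ⟨-, -, -, -, h4⟩ := (hg0p _ _).1 h2
        obtain ⟨-, -, -, -, h5⟩ := (hg0p _ _).1 h3
        rw [h4, h5]
      have hdm0 : ∀ y, y ∈ dm g0 ↔ ∃ g ∈ b, Att ext Φ M (cons g p) ∧ y ∈ dm g := by
        intro y
        rw [mem_dm]
        constructor
        · rintro ⟨z, hz⟩
          obtain ⟨g, h2, h3, h4, -⟩ := (hg0p _ _).1 hz
          exact ⟨g, h2, h3, h4⟩
        · rintro ⟨g, h2, h3, h4⟩
          exact ⟨_, (hg0p _ _).2 ⟨g, h2, h3, h4, rfl⟩⟩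
      have hap0 : ∀ y ∈ dm g0, app g0 y = F M (cons y p) := by
        intro y hy
        obtain ⟨g, h2, h3, h4⟩ := (hdm0 y).1 hy
        exact app_eq hsv0 ((hg0p _ _).2 ⟨g, h2, h3, h4, rfl⟩)
      have hext0 : ∀ y ∈ ext M (cons x p), y ∈ dm g0 := by
        intro y hy
        obtain ⟨g, hgb, h2⟩ := hb2 y hy
        have h3 := (hψ2 y g (k.trans _ heM y hy) (k.trans _ hb g hgb)).1 h2
        exact (hdm0 y).2 ⟨g, hgb, h3.1, h3.2⟩
      have hFx : F M (cons x p) = Φ M (cons (resS (ext M (cons x p)) fun y => app g0 y)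
          (cons x p)) := by
        rw [hF M k _ (hp.cons hxM)]
        congr 2
        exact resS_congr fun y hy => (hap0 y (hext0 y hy)).symm
      have hFM : M (F M (cons x p)) := by
        rw [hFx]
        refine hΦ.1 M k _ (In.cons (hp.cons hxM) ?_)
        have h2 := (Tm.resS (f := fun M v => ext M fun i => v (i + 1))
          (g := fun _ u => app (u 1) (u 0)) (hext.rn _) (Tm.app (Tm.var 1) (Tm.var 0))).1 M k
          (cons g0 (cons x p)) ((hp.cons hxM).cons hg0M)
        exact h2
      refine ⟨g0 ∪ {ZFSet.pair x (F M (cons x p))}, ?_, ?_, ?_⟩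
      · have h2 := (Tm.union (Tm.var 0) (Tm.sing (Tm.pair (Tm.var 1) (Tm.var 2)))).1 M k
          (cons g0 (cons x (cons (F M (cons x p)) p)))
          ((((hp.cons hFM).cons hxM)).cons hg0M)
        exact h2
      · have hmem : ∀ y z, ZFSet.pair y z ∈ g0 ∪ {ZFSet.pair x (F M (cons x p))} ↔
            (y ∈ dm g0 ∨ y = x) ∧ z = F M (cons y p) := by
          intro y z
          rw [ZFSet.mem_union, ZFSet.mem_singleton, ZFSet.pair_inj, hg0p, hdm0]
          constructor
          · rintro (⟨g, h2, h3, h4, h5⟩ | ⟨rfl, rfl⟩)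
            · exact ⟨Or.inl ⟨g, h2, h3, h4⟩, h5⟩
            · exact ⟨Or.inr rfl, rfl⟩
          · rintro ⟨⟨g, h2, h3, h4⟩ | rfl, rfl⟩
            · exact Or.inl ⟨g, h2, h3, h4, rfl⟩
            · exact Or.inr ⟨rfl, rfl⟩
        have hdm1 : ∀ y, y ∈ dm (g0 ∪ {ZFSet.pair x (F M (cons x p))}) ↔ y ∈ dm g0 ∨ y = x := by
          intro y
          rw [mem_dm]
          constructor
          · rintro ⟨z, hz⟩
            exact ((hmem y z).1 hz).1
          · intro hy
            exact ⟨_, (hmem y _).2 ⟨hy, rfl⟩⟩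
        have hsv1 : Svl (g0 ∪ {ZFSet.pair x (F M (cons x p))}) := by
          intro y z z' h2 h3
          rw [((hmem _ _).1 h2).2, ((hmem _ _).1 h3).2]
        refine key2 M k p hp _ ?_ ?_ ?_ ?_
        · have h2 := (Tm.union (Tm.var 0) (Tm.sing (Tm.pair (Tm.var 1) (Tm.var 2)))).1 M k
            (cons g0 (cons x (cons (F M (cons x p)) p)))
            ((((hp.cons hFM).cons hxM)).cons hg0M)
          exact h2
        · intro y hy
          rcases (hdm1 y).1 hy with h2 | rfl
          · exact (k.of_pair_mem hg0M (mem_dm.1 h2).choose_spec).1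
          · exact hxM
        · intro y hy z hz
          rw [hdm1]
          left
          rcases (hdm1 y).1 hy with h2 | rfl
          · obtain ⟨g, h3, h4, h5⟩ := (hdm0 y).1 h2
            have h6 := (h4 y h5).1 hz
            exact (hdm0 z).2 ⟨g, h3, h4, h6⟩
          · exact hext0 z hz
        · intro y hy
          exact app_eq hsv1 ((hmem _ _).2 ⟨(hdm1 y).1 hy, rfl⟩)
      · rw [mem_dm]
        exact ⟨_, ZFSet.mem_union.2 (Or.inr (ZFSet.mem_singleton.2 rfl))⟩
  refine Tm.of_graph (R := fun M w => ∃ g, M g ∧ (Att ext Φ M (cons g fun i => w (i + 2)) ∧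
    w 1 ∈ dm g ∧ w 0 = app g (w 1))) ?_ ?_ ?_
  · intro M k v hv
    obtain ⟨g, hg, hA, hx⟩ := hex M k (fun i => v (i + 1)) (fun i => hv _) (v 0) (hv 0)
    have h2 := key M k (fun i => v (i + 1)) (fun i => hv _) g hg hA (v 0) (hv 0) hx
    rw [cons_tail] at h2
    rw [← h2]
    exact (Tm.app (Tm.var 0) (Tm.var 1)).1 M k (cons g v) (hv.cons hg)
  · have e : ∀ (g : V) (w : ℕ → V), (fun i => cons g w (match i with
      | 0 => 0
      | i + 1 => i + 3)) = cons g fun i => w (i + 2) := by
      intro g w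
      funext i; cases i <;> rfl
    refine (Dfb.ex (R := fun M u => (Att ext Φ M fun i => u (match i with
      | 0 => 0
      | i + 1 => i + 3)) ∧ u 2 ∈ dm (u 0) ∧ u 1 = app (u 0) (u 2)) ?_).congr fun M k w hw => ?_
    · exact ((dfb_att hext hΦ).rn _).and ((Dfb.mem (Tm.var 2) (Tm.dm (Tm.var 0))).and
        (Dfb.eq (Tm.var 1) (Tm.app (Tm.var 0) (Tm.var 2))))
    · refine exists_congr fun g => and_congr_right fun _ => ?_
      rw [e]
      rfl
  · intro M k v hv x hxM
    simp only [cons_zero, cons_succ]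
    constructor
    · rintro ⟨g, hg, hA, hx, h2⟩
      rw [h2]
      have h3 := key M k (fun i => v (i + 1)) (fun i => hv _) g hg hA (v 0) (hv 0) hx
      rw [cons_tail] at h3
      exact h3
    · rintro rfl
      obtain ⟨g, hg, hA, hx⟩ := hex M k (fun i => v (i + 1)) (fun i => hv _) (v 0) (hv 0)
      have h2 := key M k (fun i => v (i + 1)) (fun i => hv _) g hg hA (v 0) (hv 0) hx
      rw [cons_tail] at h2
      exact ⟨g, hg, hA, hx, h2.symm⟩

end SF
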