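import Pool.Agent.H9.SF.Rec

/-! The valuation of names is uniformly definable. -/

set_option linter.unusedVariables false

open Ordinal
open scoped ZFSet

namespace SF

variable {f g : (V → Prop) → (ℕ → V) → V}

theorem rank_lt_of_pair_mem_left {x y a : V} (h : ZFSet.pair x y ∈ a) : x.rank < a.rank := by
  have h1 := rank_fst_lt h ⟨x, y, rfl⟩
  rwa [fst_pair] at h1

theorem rank_lt_of_pair_mem_right {x y a : V} (h : ZFSet.pair x y ∈ a) : y.rank < a.rank := by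
  have h1 : y ∈ ({x, y} : V) := by simp
  have h2 : ({x, y} : V) ∈ ZFSet.pair x y := by simp [ZFSet.pair]
  exact ((ZFSet.rank_lt_of_mem h1).trans (ZFSet.rank_lt_of_mem h2)).trans (ZFSet.rank_lt_of_mem h)

theorem mem_val {G x y : V} : y ∈ val G x ↔ ∃ z, ∃ p ∈ G, ZFSet.pair z p ∈ x ∧ y = val G z := by
  rw [val, ZFSet.mem_range]
  constructor
  · rintro ⟨⟨q, hq⟩, rfl⟩
    obtain ⟨h1, z, p, hp, rfl⟩ := ZFSet.mem_sep.1 hq
    refine ⟨z, p, hp, h1, ?_⟩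
    rw [fst_pair]
  · rintro ⟨z, p, hp, h1, rfl⟩
    refine ⟨⟨ZFSet.pair z p, ZFSet.mem_sep.2 ⟨h1, z, p, hp, rfl⟩⟩, ?_⟩
    rw [fst_pair]

theorem val_mem {G x z p : V} (h : ZFSet.pair z p ∈ x) (hp : p ∈ G) : val G z ∈ val G x :=
  mem_val.2 ⟨z, p, hp, h, rfl⟩

theorem tm_val0 : Tm ZFm (fun _ v => val (v 1) (v 0)) := by
  refine tm_recu (ext := fun _ v => dm (v 0))
    (Φ := fun _ u => imS ((u 1).sep fun q => IsPr q ∧ snd q ∈ u 2) fun q => app (u 0) (fst q))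
    ZFSet.rank (Tm.dm (Tm.var 0)) ?_ ?_ ?_
  · exact Tm.image (g := fun _ u => app (u 1) (fst (u 0)))
      (Tm.sep (R := fun _ u => IsPr (u 0) ∧ snd (u 0) ∈ u 3)
        ((Dfb.isPr (Tm.var 0)).and (Dfb.mem (Tm.snd (Tm.var 0)) (Tm.var 3))) (Tm.var 1))
      (Tm.app (Tm.var 1) (Tm.fst (Tm.var 0)))
  · intro M k v hv y hy
    obtain ⟨z, hz⟩ := mem_dm.1 hy
    exact rank_lt_of_pair_mem_left hz
  · intro M k v hv
    ext y
    rw [mem_val]
    simp only [mem_imS, ZFSet.mem_sep, cons_zero, cons_succ]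
    constructor
    · rintro ⟨z, p, hp, h1, rfl⟩
      refine ⟨ZFSet.pair z p, ⟨h1, ⟨z, p, rfl⟩, by rwa [snd_pair]⟩, ?_⟩
      rw [fst_pair, app_resS (mem_dm.2 ⟨p, h1⟩)]
    · rintro ⟨q, ⟨h1, ⟨z, p, rfl⟩, h2⟩, rfl⟩
      rw [snd_pair] at h2
      refine ⟨z, p, h2, h1, ?_⟩
      rw [fst_pair, app_resS (mem_dm.2 ⟨p, h1⟩)]

theorem Tm.val (hf : Tm ZFm f) (hg : Tm ZFm g) : Tm ZFm (fun M v => val (f M v) (g M v)) :=
  Tm.at2 (F := fun _ x y => SF.val x y)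
    (tm_val0.rn fun i => if i = 0 then 1 else 0) hf hg

end SF
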